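import Mathlib

namespace Pool.Agent.P.MP_1d6da1_co

open Finset

variable {α β : Type*} [DecidableEq α] [DecidableEq β]

/-- any `k` points of `V` lie in at most `t` blocks of `Q` -/
def Cod (k t : ℕ) (N : β → Finset α) (V : Finset α) (Q : Finset β) : Prop :=
  ∀ A ⊆ V, A.card = k → (Q.filter (fun q => A ⊆ N q)).card ≤ t

/-- a choice of exactly `Δ` blocks through every point -/
structure Mark (N : β → Finset α) (V : Finset α) (Q : Finset β) (Δ : ℕ) (M : α → Finset β) :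
    Prop where
  sub : ∀ x ∈ V, M x ⊆ Q
  mem : ∀ x ∈ V, ∀ q ∈ M x, x ∈ N q
  card : ∀ x ∈ V, (M x).card = Δ

omit [DecidableEq β] in
theorem exists_mark (N : β → Finset α) (V : Finset α) (Q : Finset β) (Δ : ℕ)
    (h : ∀ x ∈ V, Δ ≤ (Q.filter (fun q => x ∈ N q)).card) : ∃ M, Mark N V Q Δ M := by
  classical
  have : ∀ x, ∃ S : Finset β, x ∈ V → S ⊆ Q.filter (fun q => x ∈ N q) ∧ S.card = Δ := by
    intro x
    by_cases hx : x ∈ V
    · obtain ⟨S, hS, hc⟩ := exists_subset_card_eq (h x hx)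
      exact ⟨S, fun _ => ⟨hS, hc⟩⟩
    · exact ⟨∅, fun h => absurd h hx⟩
  choose M hM using this
  refine ⟨M, fun x hx q hq => ?_, fun x hx q hq => ?_, fun x hx => (hM x hx).2⟩
  · exact (mem_filter.1 ((hM x hx).1 hq)).1
  · exact (mem_filter.1 ((hM x hx).1 hq)).2

omit [DecidableEq α] in
theorem sum_inter_eq (M : α → Finset β) (S : Finset β) (A : Finset α) :
    ∑ y ∈ A, (S ∩ M y).card = ∑ q ∈ S, (A.filter (fun y => q ∈ M y)).card := by
  have h1 : ∀ y, (S ∩ M y).card = ∑ q ∈ S, if q ∈ M y then 1 else 0 := by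
    intro y
    rw [← filter_mem_eq_inter, card_filter]
  simp_rw [h1, card_filter]
  exact sum_comm

omit [DecidableEq α] in
theorem sum_sum_inter_ge {N : β → Finset α} {V : Finset α} {Q : Finset β} {Δ : ℕ}
    {M : α → Finset β} (hM : Mark N V Q Δ M) :
    ((V.card : ℝ) * Δ) ^ 2 ≤ Q.card * ∑ z ∈ V, ∑ y ∈ V, ((M z ∩ M y).card : ℝ) := by
  have h1 : ∑ q ∈ Q, ((V.filter (fun y => q ∈ M y)).card : ℝ) = V.card * Δ := by
    have := sum_inter_eq M Q V
    have h2 : ∑ y ∈ V, (Q ∩ M y).card = V.card * Δ := by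
      rw [sum_congr rfl (fun y hy => by rw [inter_eq_right.2 (hM.sub y hy), hM.card y hy])]
      simp
    rw [h2] at this
    exact_mod_cast this.symm
  have h3 : ∑ z ∈ V, ∑ y ∈ V, ((M z ∩ M y).card : ℝ)
      = ∑ q ∈ Q, ((V.filter (fun y => q ∈ M y)).card : ℝ) ^ 2 := by
    have h4 : ∀ z ∈ V, ∑ y ∈ V, (M z ∩ M y).card
        = ∑ q ∈ Q, if q ∈ M z then (V.filter (fun y => q ∈ M y)).card else 0 := by
      intro z hz
      rw [sum_inter_eq, ← sum_filter, filter_mem_eq_inter, inter_eq_right.2 (hM.sub z hz)]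
    have h5 : ∑ z ∈ V, ∑ y ∈ V, (M z ∩ M y).card
        = ∑ q ∈ Q, ((V.filter (fun y => q ∈ M y)).card) ^ 2 := by
      rw [sum_congr rfl h4, sum_comm]
      refine sum_congr rfl (fun q _ => ?_)
      rw [← sum_filter, sum_const, smul_eq_mul, sq]
    exact_mod_cast h5
  rw [h3, ← h1]
  exact sq_sum_le_card_mul_sum_sq

theorem sum_choose_le {N : β → Finset α} {V : Finset α} {Q : Finset β} {Δ m t : ℕ}
    {M : α → Finset β} (hM : Mark N V Q Δ M) (hC : Cod (m + 1) t N V Q) {z : α} (hz : z ∈ V)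
    {A : Finset α} (hA : A ⊆ V) (hzA : z ∉ A) :
    ∑ q ∈ M z, ((A.filter (fun y => q ∈ M y)).card).choose m ≤ t * A.card.choose m := by
  have h1 : ∀ q, ((A.filter (fun y => q ∈ M y)).card).choose m
      = ∑ S ∈ A.powersetCard m, if (∀ y ∈ S, q ∈ M y) then 1 else 0 := by
    intro q
    rw [← card_powersetCard, ← card_filter]
    congr 1
    ext S
    simp only [mem_powersetCard, mem_filter, subset_iff]
    constructor
    · rintro ⟨h, hc⟩
      exact ⟨⟨fun x hx => (h hx).1, hc⟩, fun y hy => (h hy).2⟩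
    · rintro ⟨⟨h, hc⟩, h2⟩
      exact ⟨fun x hx => ⟨h hx, h2 x hx⟩, hc⟩
  simp_rw [h1]
  rw [sum_comm, ← card_powersetCard, mul_comm, ← smul_eq_mul, ← sum_const]
  refine sum_le_sum (fun S hS => ?_)
  rw [← card_filter]
  obtain ⟨hSA, hSc⟩ := mem_powersetCard.1 hS
  have hzS : z ∉ S := fun h => hzA (hSA h)
  refine le_trans (card_le_card ?_) (hC (insert z S) ?_ ?_)
  · intro q hq
    obtain ⟨hq1, hq2⟩ := mem_filter.1 hq
    refine mem_filter.2 ⟨hM.sub z hz hq1, ?_⟩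
    intro x hx
    rcases mem_insert.1 hx with rfl | hx
    · exact hM.mem _ hz q hq1
    · exact hM.mem x (hA (hSA hx)) q (hq2 x hx)
  · intro x hx
    rcases mem_insert.1 hx with rfl | hx
    · exact hz
    · exact hA (hSA hx)
  · rw [card_insert_of_notMem hzS, hSc]

theorem tail_le {N : β → Finset α} {V : Finset α} {Q : Finset β} {Δ m t : ℕ}
    {M : α → Finset β} (hM : Mark N V Q Δ M) (hC : Cod (m + 2) t N V Q) {z : α} (hz : z ∈ V)
    {A : Finset α} (hA : A ⊆ V) (hzA : z ∉ A) {R : ℝ} (hR : 0 ≤ R)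
    (h : (Δ : ℝ) ^ m * t * (A.card : ℝ) ^ (m + 1) ≤ R ^ (m + 1)) :
    ∑ y ∈ A, ((M z ∩ M y).card : ℝ) ≤ (m + 1) * Δ + R := by
  set b : β → ℕ := fun q => (A.filter (fun y => q ∈ M y)).card with hb
  have h1 : ∑ y ∈ A, ((M z ∩ M y).card : ℝ) = ∑ q ∈ M z, (b q : ℝ) := by
    exact_mod_cast sum_inter_eq M (M z) A
  have h2 := sum_choose_le hM hC hz hA hzA
  have hfac : (0 : ℝ) < ((m + 1).factorial : ℝ) := by exact_mod_cast Nat.factorial_pos _
  have h3 : ∑ q ∈ M z, ((b q + 1 - (m + 1) : ℕ) : ℝ) ^ (m + 1) ≤ t * (A.card : ℝ) ^ (m + 1) := by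
    have h4 : ∑ q ∈ M z, ((b q + 1 - (m + 1) : ℕ) : ℝ) ^ (m + 1) / ((m + 1).factorial : ℝ)
        ≤ t * ((A.card : ℝ) ^ (m + 1) / ((m + 1).factorial : ℝ)) := by
      calc _ ≤ ∑ q ∈ M z, (((b q).choose (m + 1) : ℕ) : ℝ) :=
            sum_le_sum (fun q _ => Nat.pow_le_choose (m + 1) (b q))
        _ ≤ t * ((A.card.choose (m + 1) : ℕ) : ℝ) := by exact_mod_cast h2
        _ ≤ _ := by
            gcongr
            exact Nat.choose_le_pow_div (m + 1) A.card
    rw [← sum_div, ← mul_div_assoc] at h4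
    exact (div_le_div_iff_of_pos_right hfac).1 h4
  have h5 : (∑ q ∈ M z, ((b q + 1 - (m + 1) : ℕ) : ℝ)) ^ (m + 1) ≤ R ^ (m + 1) := by
    calc _ ≤ ((M z).card : ℝ) ^ m * ∑ q ∈ M z, ((b q + 1 - (m + 1) : ℕ) : ℝ) ^ (m + 1) :=
          pow_sum_le_card_mul_sum_pow (fun q _ => Nat.cast_nonneg _) m
      _ ≤ (Δ : ℝ) ^ m * (t * (A.card : ℝ) ^ (m + 1)) := by
          rw [hM.card z hz]; gcongr
      _ ≤ _ := by rw [← mul_assoc]; exact h
  have h6 : ∑ q ∈ M z, ((b q + 1 - (m + 1) : ℕ) : ℝ) ≤ R :=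
    le_of_pow_le_pow_left₀ (Nat.succ_ne_zero m) hR h5
  have h7 : ∑ q ∈ M z, (b q : ℝ) ≤ ∑ q ∈ M z, (((m : ℝ) + 1) + ((b q + 1 - (m + 1) : ℕ) : ℝ)) := by
    refine sum_le_sum (fun q _ => ?_)
    have : b q ≤ (m + 1) + (b q + 1 - (m + 1)) := by omega
    exact_mod_cast this
  rw [sum_add_distrib, sum_const, hM.card z hz, nsmul_eq_mul] at h7
  rw [h1]
  linarith

/-- the points with large marked codegree with `z` -/
noncomputable def good (V : Finset α) (M : α → Finset β) (r : ℝ) (z : α) : Finset α := by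
  classical
  exact V.filter (fun y => y ≠ z ∧ r ≤ ((M z ∩ M y).card : ℝ))

theorem mem_good {V : Finset α} {M : α → Finset β} {r : ℝ} {z y : α} :
    y ∈ good V M r z ↔ y ∈ V ∧ y ≠ z ∧ r ≤ ((M z ∩ M y).card : ℝ) := by
  unfold good
  simp only [mem_filter]

theorem good_sub {V : Finset α} {M : α → Finset β} {r : ℝ} {z : α} : good V M r z ⊆ V :=
  fun _ hy => (mem_good.1 hy).1

theorem good_symm {V : Finset α} {M : α → Finset β} {r : ℝ} {z y : α} (hz : z ∈ V)
    (h : y ∈ good V M r z) : z ∈ good V M r y := by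
  obtain ⟨_, h2, h3⟩ := mem_good.1 h
  exact mem_good.2 ⟨hz, h2.symm, by rwa [inter_comm]⟩

theorem many_good {N : β → Finset α} {V : Finset α} {Q : Finset β} {Δ m t L : ℕ}
    {M : α → Finset β} (hM : Mark N V Q Δ M) (hC : Cod (m + 2) t N V Q) {p g : ℝ} (hp : 0 < p)
    (hL : Q.card ≤ L) (h1 : p * L ≤ Δ) (h2 : (Δ : ℝ) ≤ 2 * p * L) (hL0 : 0 < L)
    (hg : 0 < g) (hg1 : g ≤ 1) (hgt : 16 ^ (m + 1) * t * g ≤ p ^ (m + 2) * L)
    (hD : 16 * (m + 1) ≤ p * V.card) :
    g * V.card ≤ ((V.filter (fun z => g * V.card ≤ ((good V M (p ^ 2 * L / 4) z).card : ℝ))).card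
      : ℝ) := by
  classical
  obtain ⟨D, hDdef⟩ : ∃ D : ℝ, D = (V.card : ℝ) := ⟨_, rfl⟩
  obtain ⟨r, hr⟩ : ∃ r : ℝ, r = p ^ 2 * L := ⟨_, rfl⟩
  rw [← hDdef] at hD ⊢
  rw [← hr]
  have hLpos : (0 : ℝ) < L := by exact_mod_cast hL0
  have hDpos : 0 < D := by
    have : (0 : ℝ) < p * D := lt_of_lt_of_le (by positivity) hD
    rcases (mul_pos_iff.1 this) with h | h
    · exact h.2
    · exact absurd h.1 (not_lt.2 hp.le)
  have hrpos : 0 < r := by rw [hr]; positivity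
  obtain ⟨Y, hY⟩ : ∃ Y, Y = V.filter (fun z => g * D ≤ ((good V M (r / 4) z).card : ℝ)) :=
    ⟨_, rfl⟩
  rw [← hY]
  have hYV : Y ⊆ V := by rw [hY]; exact filter_subset _ _
  have hsum : D ^ 2 * r ≤ ∑ z ∈ V, ∑ y ∈ V, ((M z ∩ M y).card : ℝ) := by
    have h3 := sum_sum_inter_ge hM
    have h4 : (Q.card : ℝ) ≤ L := by exact_mod_cast hL
    have hS : 0 ≤ ∑ z ∈ V, ∑ y ∈ V, ((M z ∩ M y).card : ℝ) := by positivity
    rw [← hDdef] at h3
    generalize ∑ z ∈ V, ∑ y ∈ V, ((M z ∩ M y).card : ℝ) = S at h3 hS ⊢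
    have h5 : (D * (p * L)) ^ 2 ≤ L * S := by
      calc (D * (p * L)) ^ 2 ≤ (D * Δ) ^ 2 := by gcongr
        _ ≤ Q.card * S := h3
        _ ≤ L * S := by gcongr
    have h6 : L * (D ^ 2 * r) ≤ L * S := by
      calc L * (D ^ 2 * r) = (D * (p * L)) ^ 2 := by rw [hr]; ring
        _ ≤ L * S := h5
    exact le_of_mul_le_mul_left h6 hLpos
  have hΔ : (m + 1) * (Δ : ℝ) ≤ r * D / 8 := by
    calc (m + 1) * (Δ : ℝ) ≤ (m + 1) * (2 * p * L) := by gcongr
      _ = (16 * (m + 1)) * (p * L) / 8 := by ring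
      _ ≤ (p * D) * (p * L) / 8 := by gcongr
      _ = r * D / 8 := by rw [hr]; ring
  have hkey : (Δ : ℝ) ^ m * t * (g * D) ^ (m + 1) ≤ (r * D / 8) ^ (m + 1) := by
    have hgm : g ^ (m + 1) ≤ g := by
      calc g ^ (m + 1) = g ^ m * g := pow_succ _ _
        _ ≤ 1 * g := by gcongr; exact pow_le_one₀ hg.le hg1
        _ = g := one_mul _
    have h2m : (2 : ℝ) ^ m * 8 ^ (m + 1) ≤ 16 ^ (m + 1) := by
      calc (2 : ℝ) ^ m * 8 ^ (m + 1) ≤ 2 ^ (m + 1) * 8 ^ (m + 1) := by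
            gcongr
            · norm_num
            · omega
        _ = 16 ^ (m + 1) := by rw [← mul_pow]; norm_num
    have h8 : (0 : ℝ) < 8 ^ (m + 1) := by positivity
    rw [div_pow, le_div_iff₀ h8]
    calc (Δ : ℝ) ^ m * t * (g * D) ^ (m + 1) * 8 ^ (m + 1)
        ≤ (2 * p * L) ^ m * t * (g * D) ^ (m + 1) * 8 ^ (m + 1) := by gcongr
      _ = (2 ^ m * 8 ^ (m + 1)) * t * g ^ (m + 1) * ((p * L) ^ m * D ^ (m + 1)) := by
          rw [mul_pow, mul_pow, mul_pow, mul_pow]; ring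
      _ ≤ 16 ^ (m + 1) * t * g * ((p * L) ^ m * D ^ (m + 1)) := by gcongr
      _ ≤ p ^ (m + 2) * L * ((p * L) ^ m * D ^ (m + 1)) := by gcongr
      _ = (r * D) ^ (m + 1) := by rw [hr, mul_pow, mul_pow, mul_pow]; ring
  have hper : ∀ z ∈ V, ∑ y ∈ V, ((M z ∩ M y).card : ℝ)
      ≤ 5 * r * D / 8 + if z ∈ Y then r * D / (8 * g) else 0 := by
    intro z hz
    have hsplit : ∑ y ∈ V, ((M z ∩ M y).card : ℝ)
        ≤ Δ + D * (r / 4) + ∑ y ∈ good V M (r / 4) z, ((M z ∩ M y).card : ℝ) := by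
      have e1 : ∀ y ∈ V, ((M z ∩ M y).card : ℝ) ≤ (if y = z then (Δ : ℝ) else 0) + r / 4
          + if y ∈ good V M (r / 4) z then ((M z ∩ M y).card : ℝ) else 0 := by
        intro y hy
        by_cases hyz : y = z
        · subst hyz
          rw [inter_self, hM.card y hy, if_pos rfl]
          split_ifs <;> nlinarith [Nat.cast_nonneg (α := ℝ) Δ]
        · rw [if_neg hyz]
          by_cases hgood : y ∈ good V M (r / 4) z
          · rw [if_pos hgood]; linarith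
          · rw [if_neg hgood]
            have : ¬ (r / 4 ≤ ((M z ∩ M y).card : ℝ)) := fun h => hgood (mem_good.2 ⟨hy, hyz, h⟩)
            linarith
      refine le_trans (sum_le_sum e1) (le_of_eq ?_)
      rw [sum_add_distrib, sum_add_distrib, sum_ite_eq' V z, if_pos hz, sum_const, nsmul_eq_mul,
        ← sum_filter, filter_mem_eq_inter, inter_eq_right.2 good_sub, hDdef]
    have hzn : z ∉ good V M (r / 4) z := fun h => (mem_good.1 h).2.1 rfl
    have hΔ1 : (Δ : ℝ) ≤ r * D / 8 := by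
      have : (0 : ℝ) ≤ m * Δ := by positivity
      linarith
    by_cases hzY : z ∈ Y
    · rw [if_pos hzY]
      have hcard : ((good V M (r / 4) z).card : ℝ) ≤ D := by
        rw [hDdef]; exact_mod_cast card_le_card (good_sub (V := V) (M := M) (r := r / 4) (z := z))
      have := tail_le hM hC hz (good_sub (r := r / 4) (z := z)) hzn
        (R := r * D / (8 * g)) (by positivity) (by
          calc (Δ : ℝ) ^ m * t * ((good V M (r / 4) z).card : ℝ) ^ (m + 1)
              ≤ (Δ : ℝ) ^ m * t * D ^ (m + 1) := by gcongr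
            _ = (Δ : ℝ) ^ m * t * (g * D) ^ (m + 1) / g ^ (m + 1) := by
                rw [mul_pow]; field_simp
            _ ≤ (r * D / 8) ^ (m + 1) / g ^ (m + 1) := by gcongr
            _ = (r * D / (8 * g)) ^ (m + 1) := by rw [← div_pow, div_div])
      have : 0 < r * D := by positivity
      linarith
    · rw [if_neg hzY]
      have hcard : ((good V M (r / 4) z).card : ℝ) ≤ g * D := by
        by_contra hcon
        exact hzY (by rw [hY]; exact mem_filter.2 ⟨hz, (not_le.1 hcon).le⟩)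
      have := tail_le hM hC hz (good_sub (r := r / 4) (z := z)) hzn
        (R := r * D / 8) (by positivity) (le_trans (by gcongr) hkey)
      linarith
  have htot := le_trans hsum (sum_le_sum hper)
  rw [sum_add_distrib, sum_const, nsmul_eq_mul, ← sum_filter, filter_mem_eq_inter,
    inter_eq_right.2 hYV, sum_const, nsmul_eq_mul, ← hDdef] at htot
  have h9 : 3 * (g * D) * (r * D) ≤ (Y.card : ℝ) * (r * D) := by
    have e : (Y.card : ℝ) * (r * D / (8 * g)) * (8 * g) = (Y.card : ℝ) * (r * D) := by field_simp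
    have : (3 * D * (r * D) / 8) * (8 * g) ≤ (Y.card : ℝ) * (r * D / (8 * g)) * (8 * g) := by
      gcongr
      nlinarith
    rw [e] at this
    linarith
  have h10 : 3 * (g * D) ≤ (Y.card : ℝ) := le_of_mul_le_mul_right h9 (by positivity)
  have : 0 < g * D := by positivity
  linarith

end Pool.Agent.P.MP_1d6da1_co
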