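import Mathlib
import Pool.Agent.P.MP_1d6da1_co.Basic

namespace Pool.Agent.P.MP_1d6da1_co

open Finset

variable {α β : Type*} [DecidableEq α] [DecidableEq β]

open Classical in
/-- ordered cliques of length `j` inside `U` -/
noncomputable def cliq (R : α → α → Prop) (j : ℕ) (U : Finset α) : Finset (Fin j → α) :=
  (Fintype.piFinset fun _ => U).filter (fun x => ∀ i i', i ≠ i' → R (x i) (x i'))

open Classical in
/-- ordered related pairs inside `U` -/
noncomputable def pairs (R : α → α → Prop) (U : Finset α) : Finset (α × α) :=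
  (U ×ˢ U).filter (fun e => R e.1 e.2)

open Classical in
/-- neighbourhood inside `U` -/
noncomputable def nb (R : α → α → Prop) (U : Finset α) (v : α) : Finset α :=
  U.filter (fun y => R v y)

omit [DecidableEq α] in
theorem mem_cliq {R : α → α → Prop} {j : ℕ} {U : Finset α} {x : Fin j → α} :
    x ∈ cliq R j U ↔ (∀ i, x i ∈ U) ∧ ∀ i i', i ≠ i' → R (x i) (x i') := by
  unfold cliq
  simp only [mem_filter, Fintype.mem_piFinset]

omit [DecidableEq α] in
theorem mem_pairs {R : α → α → Prop} {U : Finset α} {e : α × α} :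
    e ∈ pairs R U ↔ e.1 ∈ U ∧ e.2 ∈ U ∧ R e.1 e.2 := by
  unfold pairs
  simp only [mem_filter, mem_product, and_assoc]

omit [DecidableEq α] in
theorem mem_nb {R : α → α → Prop} {U : Finset α} {v y : α} :
    y ∈ nb R U v ↔ y ∈ U ∧ R v y := by
  unfold nb
  simp only [mem_filter]

omit [DecidableEq α] in
theorem card_pairs_le (R : α → α → Prop) {W U : Finset α} (h : W ⊆ U) :
    (pairs R W).card ≤ ∑ v ∈ W, (nb R U v).card := by
  rw [← card_sigma]
  refine card_le_card_of_injOn (fun e => ⟨e.1, e.2⟩) ?_ ?_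
  · intro e he
    obtain ⟨h1, h2, h3⟩ := mem_pairs.1 (mem_coe.1 he)
    exact mem_coe.2 (mem_sigma.2 ⟨h1, mem_nb.2 ⟨h h2, h3⟩⟩)
  · intro e _ e' _ hee
    simp only [Sigma.mk.injEq, heq_eq_eq] at hee
    exact Prod.ext hee.1 hee.2

omit [DecidableEq α] in
theorem many_high (R : α → α → Prop) {S U : Finset α} {u : ℝ} {A : ℕ} (hu : 0 < u) (hA : 0 < A)
    (hd : ∀ W ⊆ S, u ≤ W.card → (W.card : ℝ) ^ 2 ≤ A * (pairs R W).card)
    (hU : U ⊆ S) (hc : 2 * u ≤ U.card) :
    (U.card : ℝ) ≤ 2 * (U.filter (fun v => U.card ≤ 2 * A * (nb R U v).card)).card := by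
  by_contra hcon
  push Not at hcon
  obtain ⟨Lo, hLo⟩ : ∃ Lo, Lo = U.filter (fun v => ¬ (U.card ≤ 2 * A * (nb R U v).card)) :=
    ⟨_, rfl⟩
  have h1 : (U.filter (fun v => U.card ≤ 2 * A * (nb R U v).card)).card + Lo.card = U.card := by
    rw [hLo]; exact card_filter_add_card_filter_not _
  have h1' : ((U.filter (fun v => U.card ≤ 2 * A * (nb R U v).card)).card : ℝ) + Lo.card
      = U.card := by exact_mod_cast h1
  have hLU : Lo ⊆ U := by rw [hLo]; exact filter_subset _ _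
  have h2 : (U.card : ℝ) < 2 * Lo.card := by linarith
  have h3 := hd Lo (hLU.trans hU) (by linarith)
  have h4 : ((pairs R Lo).card : ℝ) ≤ ∑ v ∈ Lo, ((nb R U v).card : ℝ) := by
    exact_mod_cast card_pairs_le R hLU
  have hLpos : (0 : ℝ) < Lo.card := by linarith
  have hne : Lo.Nonempty := card_pos.1 (by exact_mod_cast hLpos)
  have h5 : ∑ v ∈ Lo, 2 * A * ((nb R U v).card : ℝ) < ∑ _v ∈ Lo, (U.card : ℝ) := by
    refine sum_lt_sum_of_nonempty hne (fun v hv => ?_)
    rw [hLo] at hv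
    have := not_le.1 (mem_filter.1 hv).2
    exact_mod_cast this
  rw [← mul_sum, sum_const, nsmul_eq_mul] at h5
  have hApos : (0 : ℝ) < A := by exact_mod_cast hA
  have h6 : (Lo.card : ℝ) ^ 2 ≤ A * ∑ v ∈ Lo, ((nb R U v).card : ℝ) := le_trans h3 (by gcongr)
  nlinarith

omit [DecidableEq α] in
theorem sum_cliq_le (R : α → α → Prop) (hR : ∀ a b, R a b → R b a) (j : ℕ) {H U : Finset α}
    (hH : H ⊆ U) : ∑ v ∈ H, (cliq R j (nb R U v)).card ≤ (cliq R (j + 1) U).card := by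
  rw [← card_sigma]
  refine card_le_card_of_injOn (fun e => Fin.cons e.1 e.2) ?_ ?_
  · intro e he
    obtain ⟨h1, h2⟩ := mem_sigma.1 (mem_coe.1 he)
    obtain ⟨h3, h4⟩ := mem_cliq.1 h2
    refine mem_coe.2 (mem_cliq.2 ⟨?_, ?_⟩)
    · intro i
      refine Fin.cases ?_ (fun i => ?_) i
      · simpa using hH h1
      · simpa using (mem_nb.1 (h3 i)).1
    · intro i i'
      refine Fin.cases ?_ (fun i => ?_) i <;> refine Fin.cases ?_ (fun i' => ?_) i'
      · intro h; exact absurd rfl h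
      · intro _; simpa using (mem_nb.1 (h3 i')).2
      · intro _; simpa using hR _ _ (mem_nb.1 (h3 i)).2
      · intro h
        simpa using h4 i i' (fun h' => h (by rw [h']))
  · intro e _ e' _ hee
    obtain ⟨h1, h2⟩ := Fin.cons_inj.1 hee
    exact Sigma.ext h1 (heq_of_eq h2)

omit [DecidableEq α] in
theorem cliq_count (R : α → α → Prop) (hR : ∀ a b, R a b → R b a) {S : Finset α} {u : ℝ} {A : ℕ}
    (hu : 0 < u) (hA : 0 < A)
    (hd : ∀ W ⊆ S, u ≤ W.card → (W.card : ℝ) ^ 2 ≤ A * (pairs R W).card) (j : ℕ) :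
    ∀ U ⊆ S, 2 * u * (2 * A) ^ j ≤ U.card →
      (U.card : ℝ) ^ j ≤ (4 * A) ^ (j ^ 2) * (cliq R j U).card := by
  have hA1 : (1 : ℝ) ≤ A := by exact_mod_cast hA
  induction j with
  | zero =>
    intro U _ _
    have : (cliq R 0 U).Nonempty := ⟨Fin.elim0, mem_cliq.2 ⟨fun i => i.elim0, fun i => i.elim0⟩⟩
    have h1 : (1 : ℝ) ≤ (cliq R 0 U).card := by exact_mod_cast card_pos.2 this
    simpa using h1
  | succ j ih =>
    intro U hU hc
    have h2A : (1 : ℝ) ≤ (2 * A) ^ (j + 1) := one_le_pow₀ (by linarith)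
    have hc2 : 2 * u ≤ U.card := le_trans (by nlinarith) hc
    have hH := many_high R hu hA hd hU hc2
    obtain ⟨H, hHdef⟩ : ∃ H, H = U.filter (fun v => U.card ≤ 2 * A * (nb R U v).card) := ⟨_, rfl⟩
    rw [← hHdef] at hH
    have hHU : H ⊆ U := by rw [hHdef]; exact filter_subset _ _
    have h2Apos : (0 : ℝ) < 2 * A := by linarith
    have hper : ∀ v ∈ H, (U.card : ℝ) ^ j
        ≤ (2 * A) ^ j * ((4 * A) ^ (j ^ 2) * (cliq R j (nb R U v)).card) := by
      intro v hv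
      rw [hHdef] at hv
      have h1 : (U.card : ℝ) ≤ 2 * A * (nb R U v).card := by exact_mod_cast (mem_filter.1 hv).2
      have h2 : 2 * u * (2 * A) ^ j ≤ (nb R U v).card := by
        have : 2 * A * (2 * u * (2 * A) ^ j) ≤ 2 * A * ((nb R U v).card : ℝ) := by
          calc 2 * A * (2 * u * (2 * A) ^ j) = 2 * u * (2 * A) ^ (j + 1) := by ring
            _ ≤ _ := le_trans hc h1
        exact le_of_mul_le_mul_left this h2Apos
      have h3 := ih (nb R U v) (fun y hy => hU (mem_nb.1 hy).1) h2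
      calc (U.card : ℝ) ^ j ≤ (2 * A * (nb R U v).card) ^ j := by gcongr
        _ = (2 * A) ^ j * ((nb R U v).card : ℝ) ^ j := mul_pow _ _ _
        _ ≤ _ := by gcongr
    have hs := sum_le_sum hper
    rw [sum_const, nsmul_eq_mul, ← mul_sum, ← mul_sum] at hs
    have hs2 : ∑ v ∈ H, ((cliq R j (nb R U v)).card : ℝ) ≤ (cliq R (j + 1) U).card := by
      exact_mod_cast sum_cliq_le R hR j hHU
    have hnum : 2 * (2 * (A : ℝ)) ^ j * (4 * A) ^ (j ^ 2) ≤ (4 * A) ^ ((j + 1) ^ 2) := by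
      have e : (j + 1) ^ 2 = j ^ 2 + (j + (j + 1)) := by ring
      rw [e, pow_add, pow_add, mul_comm]
      refine mul_le_mul_of_nonneg_left ?_ (by positivity)
      have h4 : (2 : ℝ) ≤ (4 * A) ^ (j + 1) := by
        calc (2 : ℝ) ≤ 4 * A := by linarith
          _ ≤ (4 * A) ^ (j + 1) := le_self_pow₀ (by linarith) (Nat.succ_ne_zero j)
      have h5 : (2 * (A : ℝ)) ^ j ≤ (4 * A) ^ j := by gcongr; norm_num
      calc 2 * (2 * (A : ℝ)) ^ j = (2 * (A : ℝ)) ^ j * 2 := mul_comm _ _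
        _ ≤ _ := by gcongr
    calc (U.card : ℝ) ^ (j + 1) = U.card * (U.card : ℝ) ^ j := by ring
      _ ≤ (2 * H.card) * (U.card : ℝ) ^ j := by gcongr
      _ = 2 * (H.card * (U.card : ℝ) ^ j) := by ring
      _ ≤ 2 * ((2 * A) ^ j * ((4 * A) ^ (j ^ 2) * (cliq R (j + 1) U).card)) := by
          refine mul_le_mul_of_nonneg_left ?_ (by norm_num)
          exact le_trans hs (by gcongr)
      _ = (2 * (2 * (A : ℝ)) ^ j * (4 * A) ^ (j ^ 2)) * (cliq R (j + 1) U).card := by ring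
      _ ≤ _ := by gcongr

/-- `y ≠ z` and `w, y, z` lie in a common block -/
def Tri (N : β → Finset α) (Q : Finset β) (w y z : α) : Prop :=
  y ≠ z ∧ ∃ q ∈ Q, w ∈ N q ∧ y ∈ N q ∧ z ∈ N q

omit [DecidableEq α] [DecidableEq β] in
theorem Tri.symm {N : β → Finset α} {Q : Finset β} (w y z : α) (h : Tri N Q w y z) :
    Tri N Q w z y := by
  obtain ⟨h1, q, hq, h2, h3, h4⟩ := h
  exact ⟨h1.symm, q, hq, h2, h4, h3⟩

theorem local_dense {N : β → Finset α} {V : Finset α} {Q : Finset β} {Δ t L a : ℕ}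
    {M : α → Finset β} (hM : Mark N V Q Δ M) (hC : Cod 3 t N V Q) {p : ℝ} (hp : 0 < p)
    (h2 : (Δ : ℝ) ≤ 2 * p * L) (hL0 : 0 < L) (ha : 1 ≤ a * p ^ 3 * L) {w : α} (hw : w ∈ V)
    {U : Finset α} (hU : U ⊆ good V M (p ^ 2 * L / 4) w) (hc : 16 / p ≤ U.card) :
    (U.card : ℝ) ^ 2 ≤ (64 * (t + 1) * a : ℕ) * (pairs (Tri N Q w) U).card := by
  classical
  have hLpos : (0 : ℝ) < L := by exact_mod_cast hL0
  obtain ⟨b, hb⟩ : ∃ b : β → ℕ, b = fun q => (U.filter (fun y => q ∈ M y)).card := ⟨_, rfl⟩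
  obtain ⟨X, hX⟩ : ∃ X : ℝ, X = ∑ y ∈ U, ((M w ∩ M y).card : ℝ) := ⟨_, rfl⟩
  have hUV : U ⊆ V := hU.trans good_sub
  have h3 : X = ∑ q ∈ M w, (b q : ℝ) := by
    rw [hX, hb]; exact_mod_cast sum_inter_eq M (M w) U
  have h4 : U.card * (p ^ 2 * L / 4) ≤ X := by
    rw [hX, ← nsmul_eq_mul, ← sum_const]
    exact sum_le_sum (fun y hy => (mem_good.1 (hU hy)).2.2)
  have h5 : X ^ 2 ≤ Δ * ∑ q ∈ M w, (b q : ℝ) ^ 2 := by
    rw [h3, ← hM.card w hw]; exact sq_sum_le_card_mul_sum_sq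
  have h6 : ∑ q ∈ M w, (b q) ^ 2 ≤ ∑ y ∈ U, (M w ∩ M y).card + t * (pairs (Tri N Q w) U).card := by
    have e1 : ∀ q, (b q) ^ 2 = ∑ e ∈ U ×ˢ U, if q ∈ M e.1 ∧ q ∈ M e.2 then 1 else 0 := by
      intro q
      rw [hb, ← card_filter, filter_product (fun y => q ∈ M y) (fun y => q ∈ M y), card_product, sq]
    simp_rw [e1]
    rw [sum_comm]
    have e2 : ∀ e ∈ U ×ˢ U, (∑ q ∈ M w, if q ∈ M e.1 ∧ q ∈ M e.2 then 1 else 0)
        ≤ (if e.1 = e.2 then (M w ∩ M e.1).card else 0)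
          + if Tri N Q w e.1 e.2 then t else 0 := by
      intro e he
      obtain ⟨he1, he2⟩ := mem_product.1 he
      rw [← card_filter]
      by_cases h12 : e.1 = e.2
      · rw [if_pos h12]
        refine le_trans (card_le_card ?_) (Nat.le_add_right _ _)
        intro q hq
        exact mem_inter.2 ⟨(mem_filter.1 hq).1, (mem_filter.1 hq).2.1⟩
      · rw [if_neg h12, zero_add]
        by_cases hT : Tri N Q w e.1 e.2
        · rw [if_pos hT]
          have hw1 : e.1 ≠ w := (mem_good.1 (hU he1)).2.1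
          have hw2 : e.2 ≠ w := (mem_good.1 (hU he2)).2.1
          refine le_trans (card_le_card ?_) (hC {w, e.1, e.2} ?_ ?_)
          · intro q hq
            obtain ⟨hq1, hq2, hq3⟩ := mem_filter.1 hq
            refine mem_filter.2 ⟨hM.sub w hw hq1, ?_⟩
            intro x hx
            simp only [mem_insert, mem_singleton] at hx
            rcases hx with rfl | rfl | rfl
            · exact hM.mem _ hw q hq1
            · exact hM.mem _ (hUV he1) q hq2
            · exact hM.mem _ (hUV he2) q hq3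
          · intro x hx
            simp only [mem_insert, mem_singleton] at hx
            rcases hx with rfl | rfl | rfl
            · exact hw
            · exact hUV he1
            · exact hUV he2
          · rw [card_eq_three]
            exact ⟨w, e.1, e.2, hw1.symm, hw2.symm, h12, rfl⟩
        · rw [if_neg hT, Nat.le_zero, card_eq_zero, filter_eq_empty_iff]
          intro q hq hq'
          exact hT ⟨h12, q, hM.sub w hw hq, hM.mem _ hw q hq, hM.mem _ (hUV he1) q hq'.1,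
            hM.mem _ (hUV he2) q hq'.2⟩
    refine le_trans (sum_le_sum e2) (le_of_eq ?_)
    rw [sum_add_distrib]
    congr 1
    · rw [sum_product]
      refine sum_congr rfl (fun y hy => ?_)
      simp only
      rw [sum_ite_eq U y, if_pos hy]
    · rw [← sum_filter, sum_const, smul_eq_mul, mul_comm]
      rfl
  have h7 : ∑ q ∈ M w, (b q : ℝ) ^ 2 ≤ X + t * (pairs (Tri N Q w) U).card := by
    rw [hX]; exact_mod_cast h6
  obtain ⟨E, hE⟩ : ∃ E : ℝ, E = (pairs (Tri N Q w) U).card := ⟨_, rfl⟩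
  rw [← hE] at h7 ⊢
  have hE0 : 0 ≤ E := by rw [hE]; positivity
  obtain ⟨u, hu⟩ : ∃ u : ℝ, u = U.card := ⟨_, rfl⟩
  rw [← hu] at h4 hc ⊢
  have hup : 16 ≤ u * p := (div_le_iff₀ hp).1 hc
  have hu0 : 0 ≤ u := by rw [hu]; positivity
  have hΔ0 : (0 : ℝ) ≤ Δ := by positivity
  have ht0 : (0 : ℝ) ≤ t := by positivity
  have h8 : 2 * Δ ≤ X := by
    calc 2 * (Δ : ℝ) ≤ 16 * (p * L) / 4 := by linarith
      _ ≤ (u * p) * (p * L) / 4 := by gcongr
      _ = u * (p ^ 2 * L / 4) := by ring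
      _ ≤ X := h4
  have hX0 : 0 ≤ X := by linarith
  have h9 : X ^ 2 ≤ 2 * Δ * (t * E) := by
    have : X ^ 2 ≤ Δ * (X + t * E) := le_trans h5 (by gcongr)
    nlinarith
  have h10 : (u * (p ^ 2 * L / 4)) ^ 2 ≤ 2 * (2 * p * L) * ((t + 1) * E) := by
    calc (u * (p ^ 2 * L / 4)) ^ 2 ≤ X ^ 2 := by gcongr
      _ ≤ 2 * Δ * (t * E) := h9
      _ ≤ _ := by gcongr; linarith
  have h11 : (p * L) * (u ^ 2 * (p ^ 3 * L)) ≤ (p * L) * (64 * (t + 1) * E) := by nlinarith
  have h12 : u ^ 2 * (p ^ 3 * L) ≤ 64 * (t + 1) * E := le_of_mul_le_mul_left h11 (by positivity)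
  have ha0 : (0 : ℝ) ≤ a := by positivity
  push_cast
  calc u ^ 2 = u ^ 2 * 1 := (mul_one _).symm
    _ ≤ u ^ 2 * (a * p ^ 3 * L) := by gcongr
    _ = a * (u ^ 2 * (p ^ 3 * L)) := by ring
    _ ≤ a * (64 * (t + 1) * E) := by gcongr
    _ = _ := by ring

end Pool.Agent.P.MP_1d6da1_co
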