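import Mathlib
import Pool.Agent.P.MP_1d6da1_co.Clique

namespace Pool.Agent.P.MP_1d6da1_co

open Finset

variable {α β : Type*} [DecidableEq α] [DecidableEq β]

open Classical in
/-- injective `(k+1)`-tuples all of whose faces lie in blocks -/
noncomputable def Kset (k : ℕ) (N : β → Finset α) (V : Finset α) (Q : Finset β) :
    Finset (Fin (k + 1) → α) :=
  (Fintype.piFinset fun _ => V).filter
    (fun x => Function.Injective x ∧ ∀ i, ∃ q ∈ Q, ∀ j, j ≠ i → x j ∈ N q)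

omit [DecidableEq β] in
theorem mem_Kset {k : ℕ} {N : β → Finset α} {V : Finset α} {Q : Finset β} {x : Fin (k + 1) → α} :
    x ∈ Kset k N V Q ↔
      (∀ i, x i ∈ V) ∧ Function.Injective x ∧ ∀ i, ∃ q ∈ Q, ∀ j, j ≠ i → x j ∈ N q := by
  unfold Kset
  simp only [mem_filter, Fintype.mem_piFinset]

omit [DecidableEq β] in
theorem mem_Kset_three {N : β → Finset α} {V : Finset α} {Q : Finset β} {a b c d : α}
    (ha : a ∈ V) (hb : b ∈ V) (hc : c ∈ V) (hd : d ∈ V) (hac : a ≠ c) (had : a ≠ d)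
    (hbc : b ≠ c) (hbd : b ≠ d) (h0 : Tri N Q b c d) (h1 : Tri N Q a c d) (h2 : Tri N Q d a b)
    (h3 : Tri N Q c a b) : ![a, b, c, d] ∈ Kset 3 N V Q := by
  have hcd := h0.1
  have hab := h2.1
  refine mem_Kset.2 ⟨?_, ?_, ?_⟩
  · intro i
    fin_cases i <;> simpa
  · intro i j hij
    fin_cases i <;> fin_cases j <;> simp_all [eq_comm]
  · intro i
    obtain ⟨_, q0, hq0, x0, y0, z0⟩ := h0
    obtain ⟨_, q1, hq1, x1, y1, z1⟩ := h1
    obtain ⟨_, q2, hq2, x2, y2, z2⟩ := h2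
    obtain ⟨_, q3, hq3, x3, y3, z3⟩ := h3
    fin_cases i
    · refine ⟨q0, hq0, fun j hj => ?_⟩
      fin_cases j <;> simp_all
    · refine ⟨q1, hq1, fun j hj => ?_⟩
      fin_cases j <;> simp_all
    · refine ⟨q2, hq2, fun j hj => ?_⟩
      fin_cases j <;> simp_all
    · refine ⟨q3, hq3, fun j hj => ?_⟩
      fin_cases j <;> simp_all

omit [DecidableEq β] in
theorem exists_mark' (N : β → Finset α) (V : Finset α) (Q : Finset β) {p : ℝ} {L : ℕ}
    (hdeg : ∀ x ∈ V, p * L ≤ (Q.filter (fun q => x ∈ N q)).card) (h1 : 1 ≤ p * L) :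
    ∃ Δ M, Mark N V Q Δ M ∧ p * L ≤ Δ ∧ (Δ : ℝ) ≤ 2 * p * L := by
  obtain ⟨M, hM⟩ := exists_mark N V Q ⌈p * L⌉₊ (fun x hx => Nat.ceil_le.2 (hdeg x hx))
  refine ⟨_, M, hM, Nat.le_ceil _, ?_⟩
  have := Nat.ceil_lt_add_one (a := p * L) (by linarith)
  linarith

theorem overlap {γ : Type*} [DecidableEq γ] {n : ℕ} (P : Fin n → Finset γ) (S : Finset γ)
    (hP : ∀ i, P i ⊆ S) :
    ∑ i, (P i).card ≤ S.card + ∑ ij ∈ (univ : Finset (Fin n)).offDiag, (P ij.1 ∩ P ij.2).card := by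
  have h1 : ∀ i, (P i).card = ∑ e ∈ S, if e ∈ P i then 1 else 0 := by
    intro i
    rw [← card_filter, filter_mem_eq_inter, inter_eq_right.2 (hP i)]
  have h2 : ∀ ij : Fin n × Fin n, (P ij.1 ∩ P ij.2).card
      = ∑ e ∈ S, if e ∈ P ij.1 ∧ e ∈ P ij.2 then 1 else 0 := by
    intro ij
    rw [← card_filter]
    congr 1
    ext e
    simp only [mem_inter, mem_filter]
    exact ⟨fun h => ⟨hP _ h.1, h⟩, fun h => h.2⟩
  simp_rw [h1, h2]
  rw [sum_comm, sum_comm (s := offDiag _), card_eq_sum_ones S, ← sum_add_distrib]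
  refine sum_le_sum (fun e _ => ?_)
  rw [← card_filter, ← card_filter]
  have h3 : ((univ : Finset (Fin n)).offDiag.filter (fun ij => e ∈ P ij.1 ∧ e ∈ P ij.2))
      = (univ.filter (fun i => e ∈ P i)).offDiag := by
    ext ij
    simp only [mem_filter, mem_offDiag, mem_univ, true_and]
    tauto
  rw [h3, offDiag_card]
  generalize (univ.filter (fun i => e ∈ P i)).card = X
  rcases X with _ | X
  · simp
  · have : (X + 1) * (X + 1) = X + 1 + (X * X + X) := by ring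
    omega

omit [DecidableEq β] in
theorem inj_count {N : β → Finset α} {V : Finset α} {Q : Finset β} {n : ℕ} {i j : Fin n}
    (hij : i ≠ j) (F : (Fin n → α) → Finset (α × α))
    (hF : ∀ W ∈ Fintype.piFinset (fun _ : Fin n => V), ∀ e ∈ F W,
      ![W i, W j, e.1, e.2] ∈ Kset 3 N V Q) :
    (∑ W ∈ Fintype.piFinset (fun _ : Fin n => V), (F W).card) * V.card ^ 2
      ≤ (Kset 3 N V Q).card * V.card ^ n := by
  have e1 : V.card ^ n = (Fintype.piFinset (fun _ : Fin n => V)).card := by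
    simp [Fintype.card_piFinset]
  rw [e1, sq, ← card_product, ← card_product, ← card_sigma, ← card_product]
  refine card_le_card_of_injOn
    (fun s => (![s.1.1 i, s.1.1 j, s.1.2.1, s.1.2.2],
      Function.update (Function.update s.1.1 i s.2.1) j s.2.2)) ?_ ?_
  · intro s hs
    obtain ⟨h1, h2⟩ := mem_product.1 (mem_coe.1 hs)
    obtain ⟨h3, h4⟩ := mem_sigma.1 h1
    obtain ⟨h5, h6⟩ := mem_product.1 h2
    refine mem_coe.2 (mem_product.2 ⟨hF _ h3 _ h4, ?_⟩)
    rw [Fintype.mem_piFinset] at h3 ⊢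
    intro l
    dsimp only
    by_cases hl : l = j
    · subst hl; simpa using h6
    · rw [Function.update_of_ne hl]
      by_cases hl' : l = i
      · subst hl'; simpa using h5
      · rw [Function.update_of_ne hl']; exact h3 l
  · rintro ⟨⟨W, e⟩, u, v⟩ _ ⟨⟨W', e'⟩, u', v'⟩ _ hee
    simp only [Prod.mk.injEq] at hee
    obtain ⟨h1, h2⟩ := hee
    have a0 := congrFun h1 0
    have a1 := congrFun h1 1
    have a2 := congrFun h1 2
    have a3 := congrFun h1 3
    simp only [Matrix.cons_val_zero, Matrix.cons_val_one, Matrix.cons_val] at a0 a1 a2 a3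
    have b1 := congrFun h2 j
    have b2 := congrFun h2 i
    simp only [Function.update_self, Function.update_of_ne hij] at b1 b2
    have hW : W = W' := by
      funext l
      by_cases hl : l = j
      · rw [hl]; exact a1
      · by_cases hl' : l = i
        · rw [hl']; exact a0
        · have := congrFun h2 l
          simpa only [Function.update_of_ne hl, Function.update_of_ne hl'] using this
    have he : e = e' := Prod.ext a2 a3
    subst hW he b1 b2
    rfl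

theorem base {t a L W : ℕ} (ha : 2 ≤ a) {p : ℝ} (hp : 0 < p) {N : β → Finset α} {V : Finset α}
    {Q : Finset β} (hC : Cod 3 t N V Q) (hL : Q.card ≤ L)
    (hdeg : ∀ x ∈ V, p * L ≤ (Q.filter (fun q => x ∈ N q)).card) (h1 : 1 ≤ a * p ^ 3 * L)
    (hW : (256 * (t + 1) * a) ^ (3 * (256 * (t + 1) * a) ^ 2) ≤ W) (hpW : p * W ≤ 1)
    (hD : W ≤ p * V.card) : (V.card : ℝ) ^ 4 ≤ W * (Kset 3 N V Q).card := by
  classical
  obtain ⟨A, hA⟩ : ∃ A : ℕ, A = 64 * (t + 1) * a := ⟨_, rfl⟩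
  have hb : 256 * (t + 1) * a = 4 * A := by rw [hA]; ring
  rw [hb] at hW
  have hA128 : 128 ≤ A := by rw [hA]; nlinarith
  have haA : a ≤ A := by rw [hA]; nlinarith
  obtain ⟨B, hB⟩ : ∃ B : ℝ, B = 4 * A := ⟨_, rfl⟩
  have hAr : (128 : ℝ) ≤ A := by exact_mod_cast hA128
  have hB1 : (512 : ℝ) ≤ B := by rw [hB]; linarith
  have hWr : B ^ (3 * (4 * A) ^ 2) ≤ W := by rw [hB]; exact_mod_cast hW
  have hpowW : ∀ n : ℕ, n ≤ 3 * (4 * A) ^ 2 → B ^ n ≤ W := fun n hn =>
    le_trans (pow_le_pow_right₀ (by linarith) hn) hWr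
  have hBW : B ≤ W := by simpa using hpowW 1 (by nlinarith)
  have har : (a : ℝ) ≤ A := by exact_mod_cast haA
  have ha2 : (2 : ℝ) ≤ a := by exact_mod_cast ha
  have hap : a * p ≤ 1 := by
    have : (a : ℝ) ≤ W := by linarith
    nlinarith
  have hp1 : p ≤ 1 := by nlinarith
  have hpL : 1 ≤ p * L := by
    have hL0 : (0 : ℝ) ≤ p * L := by positivity
    calc (1 : ℝ) ≤ (a * p) * p * (p * L) := by linarith [h1]
      _ ≤ 1 * 1 * (p * L) := by gcongr
      _ = p * L := by ring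
  have hL0 : 0 < L := by
    rcases Nat.eq_zero_or_pos L with h | h
    · rw [h] at hpL; norm_num at hpL
    · exact h
  obtain ⟨Δ, M, hM, hΔ1, hΔ2⟩ := exists_mark' N V Q hdeg hpL
  have hBpos : 0 < B := by linarith
  have hgood := many_good (m := 1) (g := 1 / B) hM hC hp hL hΔ1 hΔ2 hL0 (by positivity)
    (by rw [div_le_one hBpos]; linarith)
    (by
      have e : B = 256 * (t + 1) * a := by rw [hB, hA]; push_cast; ring
      have ht : (0 : ℝ) ≤ t := by positivity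
      rw [mul_one_div, div_le_iff₀ hBpos, e]
      calc (16 : ℝ) ^ (1 + 1) * t ≤ 256 * (t + 1) * 1 := by norm_num
        _ ≤ 256 * (t + 1) * (a * p ^ 3 * L) := by gcongr
        _ = _ := by ring)
    (by norm_num; linarith)
  obtain ⟨D, hDdef⟩ : ∃ D : ℝ, D = (V.card : ℝ) := ⟨_, rfl⟩
  obtain ⟨r, hr⟩ : ∃ r : ℝ, r = p ^ 2 * L / 4 := ⟨_, rfl⟩
  rw [← hr, ← hDdef] at hgood
  rw [← hDdef] at hD ⊢
  have hDpos : 0 < D := by
    have : (0 : ℝ) < p * D := by linarith
    rcases (mul_pos_iff.1 this) with h | h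
    · exact h.2
    · exact absurd h.1 (not_lt.2 hp.le)
  obtain ⟨Y, hY⟩ : ∃ Y, Y = V.filter (fun z => 1 / B * D ≤ ((good V M r z).card : ℝ)) := ⟨_, rfl⟩
  rw [← hY] at hgood
  have hYV : Y ⊆ V := by rw [hY]; exact filter_subset _ _
  have hloc : ∀ w ∈ V, ∀ U ⊆ good V M r w, 16 / p ≤ U.card →
      (U.card : ℝ) ^ 2 ≤ A * (pairs (Tri N Q w) U).card := by
    intro w hw U hU hc
    rw [hr] at hU
    rw [hA]
    exact local_dense hM hC hp hΔ2 hL0 h1 hw hU hc
  obtain ⟨n, hn⟩ : ∃ n : ℕ, n = 2 * A := ⟨_, rfl⟩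
  have hnr : (n : ℝ) = 2 * A := by rw [hn]; push_cast; ring
  have hcl : ∀ y ∈ Y, (1 / B * D) ^ n ≤ B ^ (n ^ 2) * (cliq (Tri N Q y) n (good V M r y)).card := by
    intro y hy
    have hy2 : 1 / B * D ≤ ((good V M r y).card : ℝ) := by
      rw [hY] at hy; exact (mem_filter.1 hy).2
    have := cliq_count (Tri N Q y) (Tri.symm y) (S := good V M r y) (u := 16 / p) (A := A)
      (by positivity) (by omega) (hloc y (hYV hy)) n _ subset_rfl (by
        refine le_trans ?_ hy2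
        have e1 : B ^ (n + 2) ≤ p * D := le_trans (hpowW _ (by rw [hn]; nlinarith)) hD
        have e2 : (2 * (A : ℝ)) ^ n ≤ B ^ n := by gcongr; linarith
        rw [one_div, ← div_eq_inv_mul, le_div_iff₀ hBpos]
        have e3 : p * (2 * (16 / p) * (2 * (A : ℝ)) ^ n * B) ≤ p * D := by
          calc p * (2 * (16 / p) * (2 * (A : ℝ)) ^ n * B) = 32 * (2 * (A : ℝ)) ^ n * B := by
                field_simp; norm_num
            _ ≤ B * B ^ n * B := by gcongr; linarith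
            _ = B ^ (n + 2) := by ring
            _ ≤ _ := e1
        exact le_of_mul_le_mul_left e3 hp)
    rw [← hB] at this
    exact le_trans (by gcongr) this
  obtain ⟨T, hT⟩ : ∃ T, T = Fintype.piFinset (fun _ : Fin n => V) := ⟨_, rfl⟩
  have hTc : (T.card : ℝ) = D ^ n := by
    rw [hT, hDdef]; simp [Fintype.card_piFinset]
  obtain ⟨U, hU⟩ : ∃ U : (Fin n → α) → Finset α,
      U = fun w => Y.filter (fun y => w ∈ cliq (Tri N Q y) n (good V M r y)) := ⟨_, rfl⟩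
  have hUmem : ∀ w y, y ∈ U w ↔ y ∈ Y ∧ w ∈ cliq (Tri N Q y) n (good V M r y) := by
    intro w y; rw [hU]; exact mem_filter
  have hsumU : ∑ w ∈ T, (U w).card = ∑ y ∈ Y, (cliq (Tri N Q y) n (good V M r y)).card := by
    rw [hU]
    simp only [card_filter]
    rw [sum_comm]
    refine sum_congr rfl (fun y _ => ?_)
    rw [← card_filter, filter_mem_eq_inter, inter_eq_right.2]
    intro w hw
    rw [hT, Fintype.mem_piFinset]
    exact fun i => good_sub ((mem_cliq.1 hw).1 i)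
  obtain ⟨E, hE⟩ : ∃ E : ℝ, E = B ^ (n ^ 2 + n + 1) := ⟨_, rfl⟩
  have hEpos : 0 < E := by rw [hE]; positivity
  have hsumU2 : D ^ (n + 1) ≤ E * ∑ w ∈ T, ((U w).card : ℝ) := by
    have e1 : ∑ w ∈ T, ((U w).card : ℝ)
        = ∑ y ∈ Y, ((cliq (Tri N Q y) n (good V M r y)).card : ℝ) := by exact_mod_cast hsumU
    have e2 := sum_le_sum hcl
    rw [sum_const, nsmul_eq_mul, ← mul_sum, ← e1] at e2
    calc D ^ (n + 1) = B ^ (n + 1) * ((1 / B * D) * (1 / B * D) ^ n) := by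
          rw [← pow_succ', ← mul_pow]; congr 1; field_simp
      _ ≤ B ^ (n + 1) * (Y.card * (1 / B * D) ^ n) := by gcongr
      _ ≤ B ^ (n + 1) * (B ^ (n ^ 2) * ∑ w ∈ T, ((U w).card : ℝ)) := by gcongr
      _ = _ := by rw [hE]; ring
  obtain ⟨T', hT'⟩ : ∃ T', T' = T.filter (fun w => 16 / p ≤ ((U w).card : ℝ)) := ⟨_, rfl⟩
  have hT'T : T' ⊆ T := by rw [hT']; exact filter_subset _ _
  have hsumU3 : D ^ (n + 1) ≤ 2 * E * ∑ w ∈ T', ((U w).card : ℝ) := by
    have e1 : ∑ w ∈ T, ((U w).card : ℝ) ≤ ∑ w ∈ T', ((U w).card : ℝ) + D ^ n * (16 / p) := by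
      rw [hT', sum_filter, ← hTc, ← nsmul_eq_mul, ← sum_const, ← sum_add_distrib]
      refine sum_le_sum (fun w _ => ?_)
      split_ifs with h
      · have : 0 < 16 / p := by positivity
        linarith
      · linarith [not_le.1 h]
    have e2 : 2 * E * (16 / p) ≤ D := by
      have e3 : p * (2 * E * (16 / p)) ≤ p * D := by
        calc p * (2 * E * (16 / p)) = 32 * E := by field_simp; norm_num
          _ ≤ B * E := by gcongr; linarith
          _ = B ^ (n ^ 2 + n + 2) := by rw [hE]; ring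
          _ ≤ W := hpowW _ (by rw [hn]; nlinarith)
          _ ≤ _ := hD
      exact le_of_mul_le_mul_left e3 hp
    have e4 : 2 * E * (D ^ n * (16 / p)) ≤ D ^ (n + 1) := by
      calc 2 * E * (D ^ n * (16 / p)) = D ^ n * (2 * E * (16 / p)) := by ring
        _ ≤ D ^ n * D := by gcongr
        _ = _ := by ring
    nlinarith
  obtain ⟨P, hP⟩ : ∃ P : (Fin n → α) → Fin n → Finset (α × α),
      P = fun w i => pairs (Tri N Q (w i)) (U w) := ⟨_, rfl⟩
  have hF : ∀ w ∈ T', ((U w).card : ℝ) ^ 2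
      ≤ ∑ ij ∈ (univ : Finset (Fin n)).offDiag, ((P w ij.1 ∩ P w ij.2).card : ℝ) := by
    intro w hw
    have hw2 : 16 / p ≤ ((U w).card : ℝ) := by rw [hT'] at hw; exact (mem_filter.1 hw).2
    have hwV : ∀ i, w i ∈ V := by
      have := hT'T hw
      rw [hT, Fintype.mem_piFinset] at this
      exact this
    have e1 : ∀ i ∈ (univ : Finset (Fin n)), ((U w).card : ℝ) ^ 2 ≤ A * (P w i).card := by
      intro i _
      rw [hP]
      refine hloc (w i) (hwV i) (U w) (fun y hy => ?_) hw2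
      obtain ⟨hy1, hy2⟩ := (hUmem w y).1 hy
      exact good_symm (hYV hy1) ((mem_cliq.1 hy2).1 i)
    have e2 := sum_le_sum e1
    rw [sum_const, nsmul_eq_mul, ← mul_sum, card_univ, Fintype.card_fin, hnr] at e2
    have e3 := overlap (P w) (U w ×ˢ U w) (fun i e he => by
      rw [hP] at he
      exact mem_product.2 ⟨(mem_pairs.1 he).1, (mem_pairs.1 he).2.1⟩)
    rw [card_product] at e3
    have e4 : ∑ i, ((P w i).card : ℝ) ≤ (U w).card * (U w).card
        + ∑ ij ∈ (univ : Finset (Fin n)).offDiag, ((P w ij.1 ∩ P w ij.2).card : ℝ) := by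
      exact_mod_cast e3
    have e5 : (A : ℝ) * (2 * ((U w).card : ℝ) ^ 2) ≤ A * ∑ i, ((P w i).card : ℝ) := by linarith
    have e6 := le_of_mul_le_mul_left e5 (by linarith)
    nlinarith
  obtain ⟨K, hK⟩ : ∃ K : ℝ, K = (Kset 3 N V Q).card := ⟨_, rfl⟩
  rw [← hK]
  have hK0 : 0 ≤ K := by rw [hK]; positivity
  have hup : ∀ ij ∈ (univ : Finset (Fin n)).offDiag,
      (∑ w ∈ T, ((P w ij.1 ∩ P w ij.2).card : ℝ)) * D ^ 2 ≤ K * D ^ n := by
    intro ij hij
    have hne : ij.1 ≠ ij.2 := (mem_offDiag.1 hij).2.2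
    have := inj_count (N := N) (V := V) (Q := Q) hne (fun w => P w ij.1 ∩ P w ij.2) (by
      intro w hw e he
      rw [Fintype.mem_piFinset] at hw
      obtain ⟨he1, he2⟩ := mem_inter.1 he
      rw [hP] at he1 he2
      obtain ⟨y1, y2, y3⟩ := mem_pairs.1 he1
      obtain ⟨_, _, y4⟩ := mem_pairs.1 he2
      obtain ⟨z1, z2⟩ := (hUmem w _).1 y1
      obtain ⟨z3, z4⟩ := (hUmem w _).1 y2
      obtain ⟨z5, z6⟩ := mem_cliq.1 z2
      obtain ⟨z7, z8⟩ := mem_cliq.1 z4
      exact mem_Kset_three (hw _) (hw _) (hYV z1) (hYV z3) (mem_good.1 (z5 _)).2.1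
        (mem_good.1 (z7 _)).2.1 (mem_good.1 (z5 _)).2.1 (mem_good.1 (z7 _)).2.1 y4 y3
        (z8 _ _ hne) (z6 _ _ hne))
    rw [hT, hK, hDdef]
    exact_mod_cast this
  have hup2 : (∑ w ∈ T', ((U w).card : ℝ) ^ 2) * D ^ 2 ≤ B ^ 2 / 4 * (K * D ^ n) := by
    have e1 := sum_le_sum hup
    rw [← sum_mul, sum_comm, sum_const, nsmul_eq_mul] at e1
    have e2 : (((univ : Finset (Fin n)).offDiag.card : ℕ) : ℝ) ≤ B ^ 2 / 4 := by
      have : (univ : Finset (Fin n)).offDiag.card ≤ n * n := by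
        rw [offDiag_card, card_univ, Fintype.card_fin]; omega
      calc (((univ : Finset (Fin n)).offDiag.card : ℕ) : ℝ) ≤ n * n := by exact_mod_cast this
        _ = B ^ 2 / 4 := by rw [hnr, hB]; ring
    calc (∑ w ∈ T', ((U w).card : ℝ) ^ 2) * D ^ 2
        ≤ (∑ w ∈ T', ∑ ij ∈ (univ : Finset (Fin n)).offDiag,
            ((P w ij.1 ∩ P w ij.2).card : ℝ)) * D ^ 2 := by
          gcongr with w hw
          exact hF w hw
      _ ≤ (∑ w ∈ T, ∑ ij ∈ (univ : Finset (Fin n)).offDiag,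
            ((P w ij.1 ∩ P w ij.2).card : ℝ)) * D ^ 2 := by
          refine mul_le_mul_of_nonneg_right ?_ (by positivity)
          exact sum_le_sum_of_subset_of_nonneg hT'T (fun _ _ _ => by positivity)
      _ ≤ _ := le_trans e1 (by gcongr)
  have hcs : (∑ w ∈ T', ((U w).card : ℝ)) ^ 2 ≤ D ^ n * ∑ w ∈ T', ((U w).card : ℝ) ^ 2 := by
    refine le_trans sq_sum_le_card_mul_sum_sq ?_
    have : (T'.card : ℝ) ≤ D ^ n := by rw [← hTc]; exact_mod_cast card_le_card hT'T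
    gcongr
  generalize ∑ w ∈ T', ((U w).card : ℝ) = S1 at hsumU3 hcs
  generalize ∑ w ∈ T', ((U w).card : ℝ) ^ 2 = S2 at hup2 hcs
  have hfin : (D ^ n) ^ 2 * D ^ 4 ≤ (D ^ n) ^ 2 * ((E * B) ^ 2 * K) := by
    calc (D ^ n) ^ 2 * D ^ 4 = (D ^ (n + 1)) ^ 2 * D ^ 2 := by ring
      _ ≤ (2 * E * S1) ^ 2 * D ^ 2 := by gcongr
      _ = 4 * E ^ 2 * S1 ^ 2 * D ^ 2 := by ring
      _ ≤ 4 * E ^ 2 * (D ^ n * S2) * D ^ 2 := by gcongr
      _ = 4 * E ^ 2 * D ^ n * (S2 * D ^ 2) := by ring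
      _ ≤ 4 * E ^ 2 * D ^ n * (B ^ 2 / 4 * (K * D ^ n)) := by gcongr
      _ = _ := by ring
  have hfin2 := le_of_mul_le_mul_left hfin (by positivity)
  have hEB : (E * B) ^ 2 ≤ W := by
    have e : (E * B) ^ 2 = B ^ (2 * (n ^ 2 + n + 2)) := by
      rw [hE, ← pow_succ, ← pow_mul, mul_comm]
    rw [e]
    exact hpowW _ (by rw [hn]; nlinarith)
  exact le_trans hfin2 (by gcongr)

end Pool.Agent.P.MP_1d6da1_co
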