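import Mathlib
import Pool.Agent.P.MP_1d6da1_co.Base

namespace Pool.Agent.P.MP_1d6da1_co

open Finset

variable {α β : Type*} [DecidableEq α] [DecidableEq β]

omit [DecidableEq β] in
theorem cons_count {k t : ℕ} {N : β → Finset α} {V Y : Finset α} {Q : Finset β} {Δ : ℕ}
    {M : α → Finset β} (hM : Mark N V Q Δ M) (hC : Cod (k + 1) t N V Q) (hY : Y ⊆ V)
    (G : α → Finset α) (hG : ∀ z, G z ⊆ V) (hGz : ∀ z, z ∉ G z) :
    ∑ z ∈ Y, ∑ c ∈ Q, (Kset k N ((G z).filter (fun x => x ∈ N c)) (M z)).card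
      ≤ t * (Kset (k + 1) N V Q).card := by
  classical
  simp_rw [← card_sigma]
  refine card_le_mul_card_image_of_maps_to
    (f := fun s => (Fin.cons s.1 s.2.2 : Fin (k + 1 + 1) → α)) ?_ t ?_
  · rintro ⟨z, c, x⟩ hs
    obtain ⟨h1, h2⟩ := mem_sigma.1 hs
    obtain ⟨h3, h4⟩ := mem_sigma.1 h2
    obtain ⟨h5, h6, h7⟩ := mem_Kset.1 h4
    dsimp only at h1 h3 h5 h6 h7 ⊢
    refine mem_Kset.2 ⟨?_, ?_, ?_⟩
    · intro i
      refine Fin.cases ?_ (fun i => ?_) i
      · simpa using hY h1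
      · simpa using hG z (mem_filter.1 (h5 i)).1
    · rw [Fin.cons_injective_iff]
      refine ⟨?_, h6⟩
      rintro ⟨i, hi⟩
      exact hGz z (hi ▸ (mem_filter.1 (h5 i)).1)
    · intro i
      refine Fin.cases ?_ (fun i => ?_) i
      · refine ⟨c, h3, fun j => ?_⟩
        refine Fin.cases ?_ (fun j => ?_) j
        · intro h; exact absurd rfl h
        · intro _; simpa using (mem_filter.1 (h5 j)).2
      · obtain ⟨q, hq, hq2⟩ := h7 i
        refine ⟨q, hM.sub z (hY h1) hq, fun j => ?_⟩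
        refine Fin.cases ?_ (fun j => ?_) j
        · intro _; simpa using hM.mem z (hY h1) q hq
        · intro h
          simpa using hq2 j (fun h' => h (by rw [h']))
  · intro b hb
    obtain ⟨h1, h2, _⟩ := mem_Kset.1 hb
    refine le_trans ?_ (hC (univ.image (fun i : Fin (k + 1) => b i.succ)) ?_ ?_)
    · refine card_le_card_of_injOn (fun s => s.2.1) ?_ ?_
      · rintro ⟨z, c, x⟩ hs
        obtain ⟨hs1, hs2⟩ := mem_filter.1 (mem_coe.1 hs)
        obtain ⟨_, h4⟩ := mem_sigma.1 hs1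
        obtain ⟨h5, h6⟩ := mem_sigma.1 h4
        obtain ⟨h7, _, _⟩ := mem_Kset.1 h6
        refine mem_coe.2 (mem_filter.2 ⟨h5, ?_⟩)
        intro y hy
        obtain ⟨i, _, rfl⟩ := mem_image.1 hy
        rw [← hs2]
        simpa using (mem_filter.1 (h7 i)).2
      · rintro ⟨z, c, x⟩ hs ⟨z', c', x'⟩ hs' hcc
        have e1 := (mem_filter.1 (mem_coe.1 hs)).2
        have e2 := (mem_filter.1 (mem_coe.1 hs')).2
        obtain ⟨e3, e4⟩ := Fin.cons_inj.1 (e1.trans e2.symm)
        dsimp only at e3 e4 hcc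
        subst e3 e4 hcc
        rfl
    · intro y hy
      obtain ⟨i, _, rfl⟩ := mem_image.1 hy
      exact h1 _
    · have hinj : Function.Injective (fun i : Fin (k + 1) => b i.succ) :=
        h2.comp (Fin.succ_injective _)
      rw [card_image_of_injective _ hinj, card_univ, Fintype.card_fin]

omit [DecidableEq β] in
theorem cod_link {k t : ℕ} {N : β → Finset α} {V V' : Finset α} {Q : Finset β} {Δ : ℕ}
    {M : α → Finset β} (hM : Mark N V Q Δ M) (hC : Cod (k + 1) t N V Q) {z : α} (hz : z ∈ V)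
    (hV : V' ⊆ V) (hzV : z ∉ V') : Cod k t N V' (M z) := by
  intro A hA hc
  have hzA : z ∉ A := fun h => hzV (hA h)
  refine le_trans (card_le_card ?_) (hC (insert z A) ?_ ?_)
  · intro q hq
    obtain ⟨h1, h2⟩ := mem_filter.1 hq
    exact mem_filter.2 ⟨hM.sub z hz h1, insert_subset (hM.mem z hz q h1) h2⟩
  · exact insert_subset hz (hA.trans hV)
  · rw [card_insert_of_notMem hzA, hc]

/-- the counting statement at level `m + 3` with the bound `W` -/
def Claim (α β : Type*) [DecidableEq α] [DecidableEq β] (m t a W : ℕ) : Prop :=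
  ∀ (L : ℕ) (p : ℝ) (N : β → Finset α) (V : Finset α) (Q : Finset β), 0 < p →
    Cod (m + 3) t N V Q → Q.card ≤ L → (∀ x ∈ V, p * L ≤ (Q.filter (fun q => x ∈ N q)).card) →
    1 ≤ a * p ^ (m + 3) * L → p * W ≤ 1 → W ≤ p ^ (m + 1) * V.card →
    (V.card : ℝ) ^ (m + 4) ≤ W * (Kset (m + 3) N V Q).card

theorem step {m t a W W' : ℕ} (ha : 2 ≤ a) (hW1 : 1 ≤ W)
    (ih : Claim α β m t (8 ^ (m + 3) * a) W)
    (hW : (2 * 128 ^ (m + 3) * (t + 1) * a) ^ (m + 6) * W ≤ W') : Claim α β (m + 1) t a W' := by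
  classical
  intro L p N V Q hp hC hL hdeg h1 hpW hD
  obtain ⟨b, hb⟩ : ∃ b : ℝ, b = 16 ^ (m + 3) * (t + 1) * a := ⟨_, rfl⟩
  obtain ⟨F, hF⟩ : ∃ F : ℝ, F = 2 * 8 ^ (m + 3) * b := ⟨_, rfl⟩
  have ha2 : (2 : ℝ) ≤ a := by exact_mod_cast ha
  have ht0 : (0 : ℝ) ≤ t := by positivity
  have h16 : (16 : ℝ) * (m + 3) ≤ 16 ^ (m + 3) := by
    have : m + 3 ≤ 16 ^ (m + 2) := by
      have := Nat.lt_pow_self (n := m + 2) (a := 16) (by norm_num)
      omega
    have h' : ((m : ℝ) + 3) ≤ 16 ^ (m + 2) := by exact_mod_cast this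
    calc (16 : ℝ) * (m + 3) ≤ 16 * 16 ^ (m + 2) := by gcongr
      _ = _ := by ring
  have h16' : (1 : ℝ) ≤ 16 ^ (m + 3) := one_le_pow₀ (by norm_num)
  have h8' : (1 : ℝ) ≤ 8 ^ (m + 3) := one_le_pow₀ (by norm_num)
  have hta : (t + 1 : ℝ) * a ≤ b := by
    rw [hb, mul_assoc]; exact le_mul_of_one_le_left (by positivity) h16'
  have hab : (a : ℝ) ≤ b := by nlinarith
  have hb16 : (16 : ℝ) ^ (m + 3) ≤ b := by
    rw [hb, mul_assoc]; exact le_mul_of_one_le_right (by positivity) (by nlinarith)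
  have hbpos : 0 < b := by linarith
  have hbF : 2 * b ≤ F := by rw [hF]; nlinarith
  have hF1 : 1 ≤ F := by linarith
  have hWr : (1 : ℝ) ≤ W := by exact_mod_cast hW1
  have hW' : F ^ (m + 6) * W ≤ W' := by
    have e : F = ((2 * 128 ^ (m + 3) * (t + 1) * a : ℕ) : ℝ) := by
      rw [hF, hb]; push_cast
      rw [show (128 : ℝ) = 8 * 16 by norm_num, mul_pow]; ring
    rw [e]; exact_mod_cast hW
  have hFW : F * W ≤ W' := le_trans (by
    gcongr
    exact le_self_pow₀ hF1 (by omega)) hW'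
  have hFW' : F ≤ W' := by nlinarith
  have hWW : (W : ℝ) ≤ W' := by nlinarith
  have hap : a * p ≤ 1 := by
    have : (a : ℝ) ≤ W' := by linarith
    nlinarith
  have hp1 : p ≤ 1 := by nlinarith
  have hpL : 1 ≤ p * L := by
    have hL0 : (0 : ℝ) ≤ p * L := by positivity
    calc (1 : ℝ) ≤ (a * p) * p ^ (m + 2) * (p * L) := by
          refine le_trans h1 (le_of_eq ?_); ring
      _ ≤ 1 * 1 * (p * L) := by
          gcongr
          exact pow_le_one₀ hp.le hp1
      _ = p * L := by ring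
  have hL0 : 0 < L := by
    rcases Nat.eq_zero_or_pos L with h | h
    · rw [h] at hpL; norm_num at hpL
    · exact h
  have hLpos : (0 : ℝ) < L := by exact_mod_cast hL0
  obtain ⟨Δ, M, hM, hΔ1, hΔ2⟩ := exists_mark' N V Q hdeg hpL
  obtain ⟨D, hDdef⟩ : ∃ D : ℝ, D = (V.card : ℝ) := ⟨_, rfl⟩
  have hD0 : 0 ≤ D := by rw [hDdef]; positivity
  have hgood := many_good (m := m + 2) (g := 1 / b) hM hC hp hL hΔ1 hΔ2 hL0 (by positivity)
    (by rw [div_le_one hbpos]; linarith)
    (by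
      rw [mul_one_div, div_le_iff₀ hbpos, hb]
      calc (16 : ℝ) ^ (m + 2 + 1) * t ≤ 16 ^ (m + 3) * (t + 1) * 1 := by
            rw [mul_one]; gcongr; linarith
        _ ≤ 16 ^ (m + 3) * (t + 1) * (a * p ^ (m + 1 + 3) * L) := by gcongr
        _ = _ := by ring)
    (by
      have e1 : p ^ (m + 1 + 1) * (V.card : ℝ) ≤ p * V.card := by
        gcongr
        exact pow_le_of_le_one hp.le hp1 (by omega)
      push_cast
      linarith)
  obtain ⟨r, hr⟩ : ∃ r : ℝ, r = p ^ 2 * L / 4 := ⟨_, rfl⟩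
  rw [← hr, ← hDdef] at hgood
  rw [← hDdef] at hD ⊢
  obtain ⟨Y, hY⟩ : ∃ Y, Y = V.filter (fun z => 1 / b * D ≤ ((good V M r z).card : ℝ)) := ⟨_, rfl⟩
  rw [← hY] at hgood
  have hYV : Y ⊆ V := by rw [hY]; exact filter_subset _ _
  have hzn : ∀ z, z ∉ good V M r z := fun z h => (mem_good.1 h).2.1 rfl
  obtain ⟨s, hs⟩ : ∃ s : ℝ, s = 1 / b * D * p / 2 := ⟨_, rfl⟩
  have hs0 : 0 ≤ s := by rw [hs]; positivity
  have hper : ∀ z ∈ Y, s ^ (m + 4) * L ≤ W * ∑ c ∈ Q,
      ((Kset (m + 3) N ((good V M r z).filter (fun x => x ∈ N c)) (M z)).card : ℝ) := by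
    intro z hz
    have hz2 : 1 / b * D ≤ ((good V M r z).card : ℝ) := by
      rw [hY] at hz; exact (mem_filter.1 hz).2
    have hzV := hYV hz
    obtain ⟨u, hu⟩ : ∃ u : β → ℝ,
      u = fun c => (((good V M r z).filter (fun x => x ∈ N c)).card : ℝ) := ⟨_, rfl⟩
    have hu0 : ∀ c, 0 ≤ u c := fun c => by rw [hu]; positivity
    have e1 : 2 * s * L ≤ ∑ c ∈ Q, u c := by
      have e2 : ∑ c ∈ Q, ((good V M r z).filter (fun x => x ∈ N c)).card
          = ∑ x ∈ good V M r z, (Q.filter (fun q => x ∈ N q)).card := by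
        simp only [card_filter]
        exact sum_comm
      have e3 : ∑ c ∈ Q, u c = ∑ x ∈ good V M r z, ((Q.filter (fun q => x ∈ N q)).card : ℝ) := by
        rw [hu]; dsimp only; exact_mod_cast e2
      rw [e3]
      calc 2 * s * L = (1 / b * D) * (p * L) := by rw [hs]; ring
        _ ≤ ((good V M r z).card : ℝ) * (p * L) := by gcongr
        _ = ∑ _x ∈ good V M r z, p * L := by rw [sum_const, nsmul_eq_mul]
        _ ≤ _ := sum_le_sum (fun x hx => hdeg x (good_sub hx))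
    obtain ⟨Q', hQ'⟩ : ∃ Q', Q' = Q.filter (fun c => s ≤ u c) := ⟨_, rfl⟩
    have hQ'Q : Q' ⊆ Q := by rw [hQ']; exact filter_subset _ _
    have hQL : (Q.card : ℝ) ≤ L := by exact_mod_cast hL
    have e4 : s * L ≤ ∑ c ∈ Q', u c := by
      have e5 : ∑ c ∈ Q, u c ≤ ∑ c ∈ Q', u c + Q.card * s := by
        rw [hQ', sum_filter, ← nsmul_eq_mul, ← sum_const, ← sum_add_distrib]
        refine sum_le_sum (fun c _ => ?_)
        split_ifs with h
        · linarith
        · linarith [not_le.1 h]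
      have : (Q.card : ℝ) * s ≤ L * s := by gcongr
      linarith
    have e6 : (s * L) ^ (m + 4) ≤ (L : ℝ) ^ (m + 3) * ∑ c ∈ Q', u c ^ (m + 4) := by
      have hQ'L : (Q'.card : ℝ) ≤ L := le_trans (by exact_mod_cast card_le_card hQ'Q) hQL
      calc (s * L) ^ (m + 4) ≤ (∑ c ∈ Q', u c) ^ (m + 4) := by gcongr
        _ ≤ (Q'.card : ℝ) ^ (m + 3) * ∑ c ∈ Q', u c ^ (m + 4) :=
            pow_sum_le_card_mul_sum_pow (fun c _ => hu0 c) (m + 3)
        _ ≤ _ := by
            refine mul_le_mul_of_nonneg_right (by gcongr) (sum_nonneg (fun c _ => ?_))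
            exact pow_nonneg (hu0 c) _
    have e7 : s ^ (m + 4) * L ≤ ∑ c ∈ Q', u c ^ (m + 4) := by
      refine le_of_mul_le_mul_left (a := (L : ℝ) ^ (m + 3)) (le_trans (le_of_eq ?_) e6)
        (by positivity)
      ring
    have e8 : ∀ c ∈ Q', u c ^ (m + 4) ≤ W *
        ((Kset (m + 3) N ((good V M r z).filter (fun x => x ∈ N c)) (M z)).card : ℝ) := by
      intro c hc
      have hc2 : s ≤ u c := by rw [hQ'] at hc; exact (mem_filter.1 hc).2
      rw [hu] at hc2 ⊢
      refine ih Δ (p / 8) N _ (M z) (by positivity)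
        (cod_link hM hC hzV ((filter_subset _ _).trans good_sub)
          (fun h => hzn z (mem_filter.1 h).1)) (hM.card z hzV).le ?_ ?_ ?_ ?_
      · intro x hx
        have hx1 := (mem_filter.1 hx).1
        have hx2 := (mem_good.1 hx1).2.2
        have hx3 : ((M z ∩ M x).card : ℝ) ≤ ((M z).filter (fun q => x ∈ N q)).card := by
          have : M z ∩ M x ⊆ (M z).filter (fun q => x ∈ N q) := fun q hq =>
            mem_filter.2 ⟨(mem_inter.1 hq).1, hM.mem x (good_sub hx1) q (mem_inter.1 hq).2⟩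
          exact_mod_cast card_le_card this
        calc p / 8 * Δ ≤ p / 8 * (2 * p * L) := by gcongr
          _ = r := by rw [hr]; ring
          _ ≤ _ := le_trans hx2 hx3
      · push_cast
        calc (1 : ℝ) ≤ a * p ^ (m + 1 + 3) * L := h1
          _ = a * p ^ (m + 3) * (p * L) := by ring
          _ ≤ a * p ^ (m + 3) * Δ := by gcongr
          _ = _ := by rw [div_pow]; field_simp
      · calc p / 8 * W ≤ p * W' := by gcongr; linarith
          _ ≤ 1 := hpW
      · refine le_trans ?_ (mul_le_mul_of_nonneg_left hc2 (by positivity))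
        have e9 : F * W ≤ F * ((p / 8) ^ (m + 1) * s) := by
          calc F * W ≤ p ^ (m + 1 + 1) * D := le_trans hFW hD
            _ ≤ 64 * (p ^ (m + 1 + 1) * D) := le_mul_of_one_le_left (by positivity) (by norm_num)
            _ = F * ((p / 8) ^ (m + 1) * s) := by
                rw [hF, hs, div_pow]; field_simp; ring
        exact le_of_mul_le_mul_left e9 (by linarith)
    calc s ^ (m + 4) * L ≤ ∑ c ∈ Q', u c ^ (m + 4) := e7
      _ ≤ _ := sum_le_sum e8
      _ = W * ∑ c ∈ Q',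
          ((Kset (m + 3) N ((good V M r z).filter (fun x => x ∈ N c)) (M z)).card : ℝ) := by
          rw [mul_sum]
      _ ≤ _ := by
          refine mul_le_mul_of_nonneg_left ?_ (by positivity)
          exact sum_le_sum_of_subset_of_nonneg hQ'Q (fun _ _ _ => by positivity)
  have htot := sum_le_sum hper
  rw [sum_const, nsmul_eq_mul, ← mul_sum] at htot
  have hcc : ∑ z ∈ Y, ∑ c ∈ Q,
      ((Kset (m + 3) N ((good V M r z).filter (fun x => x ∈ N c)) (M z)).card : ℝ)
      ≤ t * (Kset (m + 1 + 3) N V Q).card := by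
    exact_mod_cast cons_count (k := m + 3) hM hC hYV (good V M r) (fun z => good_sub) hzn
  obtain ⟨K, hK⟩ : ∃ K : ℝ, K = (Kset (m + 1 + 3) N V Q).card := ⟨_, rfl⟩
  rw [← hK] at hcc ⊢
  have hK0 : 0 ≤ K := by rw [hK]; positivity
  have hfin : (1 / b * D) * (s ^ (m + 4) * L) ≤ W * (t * K) := by
    calc (1 / b * D) * (s ^ (m + 4) * L) ≤ Y.card * (s ^ (m + 4) * L) := by gcongr
      _ ≤ _ := le_trans htot (by gcongr)
  have hnum : a * b * (2 * b) ^ (m + 4) * t ≤ F ^ (m + 6) := by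
    calc a * b * (2 * b) ^ (m + 4) * t = (t * a) * b * (2 * b) ^ (m + 4) := by ring
      _ ≤ F * F * F ^ (m + 4) := by
          gcongr
          · nlinarith
          · linarith
      _ = _ := by ring
  calc D ^ (m + 1 + 4) = D ^ (m + 1 + 4) * 1 := (mul_one _).symm
    _ ≤ D ^ (m + 1 + 4) * (a * p ^ (m + 1 + 3) * L) := by gcongr
    _ = a * b * (2 * b) ^ (m + 4) * ((1 / b * D) * (s ^ (m + 4) * L)) := by
        have : s = D * p / (2 * b) := by rw [hs]; field_simp
        rw [this, div_pow]; field_simp; ring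
    _ ≤ a * b * (2 * b) ^ (m + 4) * (W * (t * K)) := by gcongr
    _ = (a * b * (2 * b) ^ (m + 4) * t) * W * K := by ring
    _ ≤ F ^ (m + 6) * W * K := by gcongr
    _ ≤ W' * K := by gcongr

/-- the exponent constant -/
def cst (t : ℕ) : ℕ → ℕ
  | 0 => 3 * (9 + t) * (256 * (t + 1)) ^ 2
  | m + 1 => (3 * (m + 3) + 1) * cst t m * 64 ^ (m + 3) + (2 + 7 * (m + 3) + t) * (m + 6)

theorem two_pow_mul_le {a t e : ℕ} (ha : 2 ≤ a) : 2 ^ e * (t + 1) * a ≤ a ^ (e + t + 1) := by
  have h1 : t + 1 ≤ 2 ^ t := Nat.lt_two_pow_self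
  calc 2 ^ e * (t + 1) * a ≤ a ^ e * a ^ t * a := by
        gcongr
        exact le_trans h1 (Nat.pow_le_pow_left ha t)
    _ = _ := by ring

theorem claim (t m : ℕ) : ∀ a, 2 ≤ a → Claim α β m t a (a ^ (cst t m * a ^ 2)) := by
  induction m with
  | zero =>
    intro a ha L p N V Q hp hC hL hdeg h1 hpW hD
    refine base ha hp hC hL hdeg h1 ?_ hpW (by simpa using hD)
    have := two_pow_mul_le (t := t) (e := 8) ha
    calc (256 * (t + 1) * a) ^ (3 * (256 * (t + 1) * a) ^ 2)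
        ≤ (a ^ (8 + t + 1)) ^ (3 * (256 * (t + 1) * a) ^ 2) := Nat.pow_le_pow_left this _
      _ = _ := by rw [← pow_mul, cst]; congr 1; ring
  | succ m ih =>
    intro a ha
    have h8 : 1 ≤ 8 ^ (m + 3) := Nat.one_le_pow _ _ (by norm_num)
    have ha' : 2 ≤ 8 ^ (m + 3) * a := by nlinarith
    refine step ha (Nat.one_le_pow _ _ (by omega)) (ih _ ha') ?_
    have e1 : 2 * 128 ^ (m + 3) * (t + 1) * a ≤ a ^ (2 + 7 * (m + 3) + t) := by
      have := two_pow_mul_le (t := t) (e := 1 + 7 * (m + 3)) ha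
      rw [pow_add, pow_mul] at this
      calc _ ≤ a ^ (1 + 7 * (m + 3) + t + 1) := by simpa using this
        _ = _ := by congr 1; ring
    have e2 : 8 ^ (m + 3) * a ≤ a ^ (3 * (m + 3) + 1) := by
      have := two_pow_mul_le (t := 0) (e := 3 * (m + 3)) ha
      rw [pow_mul] at this
      simpa using this
    have e3 : 1 ≤ a ^ 2 := Nat.one_le_pow _ _ (by omega)
    calc (2 * 128 ^ (m + 3) * (t + 1) * a) ^ (m + 6)
          * (8 ^ (m + 3) * a) ^ (cst t m * (8 ^ (m + 3) * a) ^ 2)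
        ≤ (a ^ (2 + 7 * (m + 3) + t)) ^ (m + 6)
          * (a ^ (3 * (m + 3) + 1)) ^ (cst t m * (8 ^ (m + 3) * a) ^ 2) := by gcongr
      _ = a ^ ((2 + 7 * (m + 3) + t) * (m + 6) * 1
          + (3 * (m + 3) + 1) * cst t m * 64 ^ (m + 3) * a ^ 2) := by
          rw [← pow_mul, ← pow_mul, ← pow_add]
          congr 1
          rw [mul_pow, ← pow_mul, mul_comm (m + 3) 2, pow_mul]
          norm_num
          ring
      _ ≤ a ^ ((2 + 7 * (m + 3) + t) * (m + 6) * a ^ 2
          + (3 * (m + 3) + 1) * cst t m * 64 ^ (m + 3) * a ^ 2) := by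
          refine Nat.pow_le_pow_right (by omega) ?_
          gcongr
      _ = _ := by rw [cst]; congr 1; ring

end Pool.Agent.P.MP_1d6da1_co
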