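import Mathlib
import Pool.Agent.P.MP_1d6da1_co.Step

namespace Pool.Agent.P.MP_1d6da1_co

open Finset

variable {α β : Type*} [DecidableEq α] [DecidableEq β]

theorem coord_count {d : ℕ} (V : Finset α) (j : Fin (d + 1)) (S : Finset (Fin (d + 1) → α))
    (F : (Fin (d + 1) → α) → Finset α) {σ : ℝ} (hS : S ⊆ Fintype.piFinset (fun _ => V))
    (hF : ∀ x ∈ S, ∀ v, x j ∈ F (Function.update x j v)) (hσ : ∀ y, ((V ∩ F y).card : ℝ) ≤ σ) :
    (S.card : ℝ) * V.card ≤ (V.card : ℝ) ^ (d + 1) * σ := by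
  have h1 : S.card * V.card
      ≤ ∑ y ∈ Fintype.piFinset (fun _ : Fin (d + 1) => V), (V ∩ F y).card := by
    rw [← card_product, ← card_sigma]
    refine card_le_card_of_injOn (fun s => ⟨Function.update s.1 j s.2, s.1 j⟩) ?_ ?_
    · rintro ⟨x, v⟩ hs
      obtain ⟨h1, h2⟩ := mem_product.1 (mem_coe.1 hs)
      have h3 := Fintype.mem_piFinset.1 (hS h1)
      refine mem_coe.2 (mem_sigma.2 ⟨?_, mem_inter.2 ⟨h3 j, hF x h1 v⟩⟩)
      rw [Fintype.mem_piFinset]
      intro l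
      dsimp only
      by_cases hl : l = j
      · subst hl; simpa using h2
      · rw [Function.update_of_ne hl]; exact h3 l
    · rintro ⟨x, v⟩ _ ⟨x', v'⟩ _ hee
      simp only [Sigma.mk.injEq, heq_eq_eq] at hee
      obtain ⟨e1, e2⟩ := hee
      have e3 := congrFun e1 j
      simp only [Function.update_self] at e3
      have e4 : x = x' := by
        funext l
        by_cases hl : l = j
        · rw [hl]; exact e2
        · simpa only [Function.update_of_ne hl] using congrFun e1 l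
      rw [e3, e4]
  have h2 : (S.card : ℝ) * V.card
      ≤ ∑ y ∈ Fintype.piFinset (fun _ : Fin (d + 1) => V), ((V ∩ F y).card : ℝ) := by
    exact_mod_cast h1
  refine le_trans h2 (le_trans (sum_le_sum (fun y _ => hσ y)) (le_of_eq ?_))
  rw [sum_const, nsmul_eq_mul]
  simp [Fintype.card_piFinset]

omit [DecidableEq β] in
theorem shatter_of_count [Fintype β] {d : ℕ} {N : β → Finset α} {V : Finset α} {Q : Finset β}
    {q₀ : β} (hV : V ⊆ N q₀) {σ : ℝ} (hσ0 : 0 ≤ σ) (hσ : ∀ q ∈ Q, ((V ∩ N q).card : ℝ) ≤ σ)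
    (hK : 2 ^ (d + 1) * (d + 1) * ((V.card : ℝ) ^ (d + 1) * σ) < (Kset d N V Q).card * V.card) :
    d + 1 ≤ (univ.image N).vcDim := by
  classical
  have hch : ∀ A : Finset α, ∃ B : Finset α, ((V ∩ B).card : ℝ) ≤ σ ∧
      ((∃ q ∈ Q, A ⊆ N q) → A ⊆ B ∧ ∃ q, N q = B) := by
    intro A
    by_cases h : ∃ q ∈ Q, A ⊆ N q
    · obtain ⟨q, hq, hA⟩ := h
      exact ⟨N q, hσ q hq, fun _ => ⟨hA, q, rfl⟩⟩
    · exact ⟨∅, by simpa using hσ0, fun h' => absurd h' h⟩
  choose ch hch1 hch2 using hch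
  obtain ⟨Bad, hBad⟩ : ∃ Bad : Finset (Fin (d + 1)) × Fin (d + 1) → Finset (Fin (d + 1) → α),
      Bad = fun Ij => (Fintype.piFinset (fun _ => V)).filter
        (fun x => Ij.2 ∉ Ij.1 ∧ x Ij.2 ∈ ch (Ij.1.image x)) := ⟨_, rfl⟩
  have hB : ∀ Ij ∈ (univ : Finset (Finset (Fin (d + 1)) × Fin (d + 1))),
      ((Bad Ij).card : ℝ) * V.card ≤ (V.card : ℝ) ^ (d + 1) * σ := by
    rintro ⟨I, j⟩ _
    refine coord_count V j _ (fun y => ch (I.image y)) (by rw [hBad]; exact filter_subset _ _) ?_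
      (fun y => hch1 _)
    intro x hx v
    rw [hBad] at hx
    obtain ⟨h1, h2⟩ := (mem_filter.1 hx).2
    dsimp only at h1 h2 ⊢
    have : I.image (Function.update x j v) = I.image x :=
      image_congr (fun i hi => Function.update_of_ne
        (fun h : i = j => h1 (h ▸ mem_coe.1 hi)) _ _)
    rwa [this]
  have hlt : (univ.biUnion Bad).card < (Kset d N V Q).card := by
    have h1 := sum_le_sum hB
    rw [← sum_mul, sum_const, nsmul_eq_mul, card_univ, Fintype.card_prod, Fintype.card_finset,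
      Fintype.card_fin] at h1
    have h2 : ((univ.biUnion Bad).card : ℝ) ≤ ∑ Ij, ((Bad Ij).card : ℝ) := by
      exact_mod_cast card_biUnion_le
    have h3 : ((univ.biUnion Bad).card : ℝ) * V.card < (Kset d N V Q).card * V.card := by
      refine lt_of_le_of_lt (le_trans (by gcongr) h1) ?_
      push_cast
      exact hK
    exact_mod_cast lt_of_mul_lt_mul_right h3 (by positivity)
  obtain ⟨x, hx, hxn⟩ := exists_mem_notMem_of_card_lt_card hlt
  obtain ⟨h1, h2, h3⟩ := mem_Kset.1 hx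
  have hsh : (univ.image N).Shatters (univ.image x) := by
    intro T hT
    by_cases hall : ∀ i, x i ∈ T
    · refine ⟨N q₀, mem_image_of_mem _ (mem_univ _), ?_⟩
      rw [inter_eq_left.2]
      · refine subset_antisymm ?_ hT
        intro y hy
        obtain ⟨i, _, rfl⟩ := mem_image.1 hy
        exact hall i
      · intro y hy
        obtain ⟨i, _, rfl⟩ := mem_image.1 hy
        exact hV (h1 i)
    · push Not at hall
      obtain ⟨i, hi⟩ := hall
      obtain ⟨q, hq, hq2⟩ := h3 i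
      have hIT : (univ.filter (fun l => x l ∈ T)).image x = T := by
        refine subset_antisymm ?_ ?_
        · intro y hy
          obtain ⟨l, hl, rfl⟩ := mem_image.1 hy
          exact (mem_filter.1 hl).2
        · intro y hy
          obtain ⟨l, _, rfl⟩ := mem_image.1 (hT hy)
          exact mem_image_of_mem _ (mem_filter.2 ⟨mem_univ _, hy⟩)
      obtain ⟨h4, q', h5⟩ := hch2 T ⟨q, hq, fun y hy => by
        obtain ⟨l, _, rfl⟩ := mem_image.1 (hT hy)
        exact hq2 l (fun h => hi (h ▸ hy))⟩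
      refine ⟨ch T, h5 ▸ mem_image_of_mem _ (mem_univ _), subset_antisymm ?_ ?_⟩
      · intro y hy
        obtain ⟨hy1, hy2⟩ := mem_inter.1 hy
        obtain ⟨l, _, rfl⟩ := mem_image.1 hy1
        by_contra hcon
        refine hxn (mem_biUnion.2 ⟨(univ.filter (fun l => x l ∈ T), l), mem_univ _, ?_⟩)
        rw [hBad]
        refine mem_filter.2 ⟨Fintype.mem_piFinset.2 h1, fun h => hcon (mem_filter.1 h).2, ?_⟩
        dsimp only
        rwa [hIT]
      · exact subset_inter hT h4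
  have := hsh.card_le_vcDim
  rwa [card_image_of_injective _ h2, card_univ, Fintype.card_fin] at this

omit [DecidableEq β] in
theorem big_count {d t : ℕ} {N : β → Finset α} {V : Finset α} {Q B : Finset β} (hC : Cod d t N V Q)
    (hB : B ⊆ Q) {σ : ℝ} (hσ : 2 * d ≤ σ) (hbig : ∀ q ∈ B, σ ≤ (V ∩ N q).card) :
    B.card * (σ / 2) ^ d ≤ t * (V.card : ℝ) ^ d := by
  classical
  have h1 : ∑ q ∈ Q, (V ∩ N q).card.choose d ≤ t * V.card.choose d := by
    have e1 : ∀ q, (V ∩ N q).card.choose d = ∑ S ∈ V.powersetCard d, if S ⊆ N q then 1 else 0 := by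
      intro q
      rw [← card_powersetCard, ← card_filter]
      congr 1
      ext S
      simp only [mem_powersetCard, mem_filter, subset_inter_iff]
      tauto
    simp_rw [e1]
    rw [sum_comm, ← card_powersetCard, mul_comm, ← smul_eq_mul, ← sum_const]
    refine sum_le_sum (fun S hS => ?_)
    rw [← card_filter]
    exact hC S (mem_powersetCard.1 hS).1 (mem_powersetCard.1 hS).2
  have hfac : (0 : ℝ) < (d.factorial : ℝ) := by exact_mod_cast Nat.factorial_pos _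
  have hd0 : (0 : ℝ) ≤ d := by positivity
  have h2 : ∑ _q ∈ B, (σ / 2) ^ d / (d.factorial : ℝ) ≤ t * ((V.card : ℝ) ^ d / d.factorial) := by
    calc _ ≤ ∑ q ∈ B, (((V ∩ N q).card.choose d : ℕ) : ℝ) := by
          refine sum_le_sum (fun q hq => le_trans ?_ (Nat.pow_le_choose d _))
          have e1 := hbig q hq
          have e2 : (V ∩ N q).card ≤ d + ((V ∩ N q).card + 1 - d) := by omega
          have e3 : ((V ∩ N q).card : ℝ) ≤ d + (((V ∩ N q).card + 1 - d : ℕ) : ℝ) := by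
            exact_mod_cast e2
          gcongr
          · linarith
          · linarith
      _ ≤ ∑ q ∈ Q, (((V ∩ N q).card.choose d : ℕ) : ℝ) :=
          sum_le_sum_of_subset_of_nonneg hB (fun _ _ _ => by positivity)
      _ ≤ t * ((V.card.choose d : ℕ) : ℝ) := by exact_mod_cast h1
      _ ≤ _ := by
          gcongr
          exact Nat.choose_le_pow_div d V.card
  rw [sum_const, nsmul_eq_mul, ← mul_div_assoc, ← mul_div_assoc] at h2
  exact (div_le_div_iff_of_pos_right hfac).1 h2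

omit [DecidableEq β] in
theorem exists_star [Fintype α] [Fintype β] {n : ℕ} (N : β → Finset α) (hα : Fintype.card α ≤ n)
    (hβ : Fintype.card β ≤ n) {x : ℝ} (hx : 0 < x) (hn : 0 < n)
    (he : 2 * x * n ≤ ∑ q, ((N q).card : ℝ)) :
    ∃ q₀, ∃ V ⊆ N q₀, x ≤ V.card ∧ ∀ v ∈ V, x ≤ (univ.filter (fun q => v ∈ N q)).card := by
  classical
  obtain ⟨P, hP⟩ : ∃ P : Finset α,
      P = univ.filter (fun v => x ≤ (univ.filter (fun q => v ∈ N q)).card) := ⟨_, rfl⟩
  have hαr : (Fintype.card α : ℝ) ≤ n := by exact_mod_cast hα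
  have hβr : (Fintype.card β : ℝ) ≤ n := by exact_mod_cast hβ
  have hnr : (0 : ℝ) < n := by exact_mod_cast hn
  have h1 : ∑ q, (N q \ P).card = ∑ v ∈ univ \ P, (univ.filter (fun q => v ∈ N q)).card := by
    have : ∀ q, (N q \ P).card = ∑ v ∈ univ \ P, if v ∈ N q then 1 else 0 := by
      intro q
      rw [← card_filter]
      congr 1
      ext v
      simp [and_comm]
    simp_rw [this, card_filter]
    exact sum_comm
  have h2 : ∑ q, ((N q \ P).card : ℝ) ≤ x * n := by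
    have e1 : ∑ q, ((N q \ P).card : ℝ)
        = ∑ v ∈ univ \ P, ((univ.filter (fun q => v ∈ N q)).card : ℝ) := by exact_mod_cast h1
    rw [e1]
    calc _ ≤ ∑ _v ∈ univ \ P, x := by
          refine sum_le_sum (fun v hv => ?_)
          have := (mem_sdiff.1 hv).2
          rw [hP, mem_filter] at this
          exact (not_le.1 (fun h => this ⟨mem_univ _, h⟩)).le
      _ = (univ \ P).card * x := by rw [sum_const, nsmul_eq_mul]
      _ ≤ n * x := by
          gcongr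
          exact le_trans (card_le_univ _) hα
      _ = _ := mul_comm _ _
  have h3 : x * n ≤ ∑ q, ((N q ∩ P).card : ℝ) := by
    have e1 : ∑ q, ((N q).card : ℝ) = ∑ q, ((N q \ P).card : ℝ) + ∑ q, ((N q ∩ P).card : ℝ) := by
      rw [← sum_add_distrib]
      refine sum_congr rfl (fun q _ => ?_)
      exact_mod_cast (card_sdiff_add_card_inter (N q) P).symm
    linarith
  by_contra hcon
  push Not at hcon
  have h4 : ∀ q, ((N q ∩ P).card : ℝ) < x := by
    intro q
    by_contra h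
    obtain ⟨v, hv, hv2⟩ := hcon q (N q ∩ P) inter_subset_left (not_lt.1 h)
    have := (mem_inter.1 hv).2
    rw [hP, mem_filter] at this
    exact absurd this.2 (not_le.2 hv2)
  rcases isEmpty_or_nonempty β with hb | hb
  · rw [Finset.univ_eq_empty, sum_empty] at h3
    have : 0 < x * n := by positivity
    linarith
  · have h5 := sum_lt_sum_of_nonempty (s := (univ : Finset β)) univ_nonempty (fun q _ => h4 q)
    rw [sum_const, nsmul_eq_mul, card_univ] at h5
    nlinarith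

theorem finite_aux [Fintype α] [Fintype β] {m t a W n : ℕ} (ha : 2 ≤ a) (hW1 : 1 ≤ W)
    (hcl : Claim α β m t a W)
    (hn : ((t + 1) * a * (2 * (m + 3) * (2 ^ (m + 5) * (m + 4)) * W) ^ (m + 3)) ^ (m + 3) ≤ n)
    (N : β → Finset α) (hα : Fintype.card α ≤ n) (hβ : Fintype.card β ≤ n)
    (hC : Cod (m + 3) t N univ univ) (hvc : (univ.image N).vcDim ≤ m + 3) :
    a * (∑ q, ((N q).card : ℝ)) ^ (m + 3) ≤ 4 ^ (m + 3) * (n : ℝ) ^ (2 * m + 5) := by
  classical
  by_contra hcon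
  push Not at hcon
  obtain ⟨e, he⟩ : ∃ e : ℝ, e = ∑ q, ((N q).card : ℝ) := ⟨_, rfl⟩
  rw [← he] at hcon
  have he0 : 0 ≤ e := by rw [he]; positivity
  obtain ⟨c, hc⟩ : ∃ c : ℝ, c = 2 ^ (m + 5) * (m + 4) := ⟨_, rfl⟩
  obtain ⟨Z, hZ⟩ : ∃ Z : ℝ, Z = 2 * (m + 3) * c * W := ⟨_, rfl⟩
  obtain ⟨X, hX⟩ : ∃ X : ℝ, X = (t + 1) * a * Z ^ (m + 3) := ⟨_, rfl⟩
  have hXn : X ^ (m + 3) ≤ n := by
    rw [hX, hZ, hc]; exact_mod_cast hn
  have ha2 : (2 : ℝ) ≤ a := by exact_mod_cast ha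
  have hWr : (1 : ℝ) ≤ W := by exact_mod_cast hW1
  have ht0 : (0 : ℝ) ≤ t := by positivity
  have hm0 : (0 : ℝ) ≤ m := by positivity
  have hc1 : 1 ≤ c := by
    rw [hc]
    have : (1 : ℝ) ≤ 2 ^ (m + 5) := one_le_pow₀ (by norm_num)
    nlinarith
  have hcW : 1 ≤ c * W := by nlinarith
  have hZ2 : 2 * (c * W) ≤ Z := by rw [hZ]; nlinarith
  have hWZ : (W : ℝ) ≤ Z := by nlinarith
  have hZ1 : 1 ≤ Z := by linarith
  have hZp : Z ≤ Z ^ (m + 3) := le_self_pow₀ hZ1 (by omega)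
  have haZ : a * Z ^ (m + 3) ≤ X := by
    rw [hX, mul_assoc]; exact le_mul_of_one_le_left (by positivity) (by linarith)
  have haW : a * W ≤ X := le_trans (by gcongr; linarith) haZ
  have hZX : Z ≤ X := by nlinarith
  have hX1 : 1 ≤ X := by linarith
  have haX : a ≤ X := by nlinarith
  have hXn' : X ≤ n := le_trans (le_self_pow₀ hX1 (by omega)) hXn
  have hn1 : (1 : ℝ) ≤ n := by linarith
  have hn0 : 0 < n := by exact_mod_cast (by linarith : (0 : ℝ) < n)
  obtain ⟨p, hp, hpd⟩ : ∃ p : ℝ, 0 < p ∧ a * p ^ (m + 3) * n = 1 := by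
    refine ⟨(1 / (a * n) : ℝ) ^ (((m + 3 : ℕ) : ℝ)⁻¹), by positivity, ?_⟩
    rw [Real.rpow_inv_natCast_pow (by positivity) (by omega)]
    field_simp
  have hroot : ∀ u v : ℝ, 0 ≤ v → u ^ (m + 3) ≤ v ^ (m + 3) → u ≤ v := fun u v hv h =>
    le_of_pow_le_pow_left₀ (by omega) hv h
  have hpe : 2 * (2 * p * n) * n ≤ e := by
    refine hroot _ _ he0 (le_of_mul_le_mul_left (a := (a : ℝ)) (le_trans (le_of_eq ?_) hcon.le)
      (by linarith))
    calc (a : ℝ) * (2 * (2 * p * n) * n) ^ (m + 3)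
        = (a * p ^ (m + 3) * n) * (4 ^ (m + 3) * (n : ℝ) ^ (2 * m + 5)) := by
          rw [show 2 * (2 * p * n) * n = 4 * p * (n : ℝ) ^ 2 by ring, mul_pow, mul_pow, ← pow_mul]
          ring
      _ = _ := by rw [hpd, one_mul]
  have hpX : p * X ≤ 1 := by
    refine hroot _ _ zero_le_one ?_
    rw [one_pow, mul_pow]
    calc p ^ (m + 3) * X ^ (m + 3) ≤ p ^ (m + 3) * (a * n) := by
          gcongr
          nlinarith
      _ = 1 := by rw [← hpd]; ring
  have hXp : X ≤ p * n := by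
    refine hroot _ _ (by positivity) (le_trans hXn ?_)
    refine le_of_mul_le_mul_left (a := (a : ℝ)) ?_ (by linarith)
    calc (a : ℝ) * n ≤ n * n := mul_le_mul_of_nonneg_right (by linarith) (by linarith)
      _ = (n : ℝ) ^ 2 := by ring
      _ ≤ (n : ℝ) ^ (m + 2) := pow_le_pow_right₀ hn1 (by omega)
      _ = (a * p ^ (m + 3) * n) * (n : ℝ) ^ (m + 2) := by rw [hpd, one_mul]
      _ = _ := by rw [mul_pow]; ring
  obtain ⟨q₀, V, hV, hD, hdeg⟩ := exists_star N hα hβ (x := 2 * p * n) (by positivity) hn0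
    (by rw [← he]; exact hpe)
  obtain ⟨D, hDdef⟩ : ∃ D : ℝ, D = (V.card : ℝ) := ⟨_, rfl⟩
  rw [← hDdef] at hD
  have hDpos : 0 < D := by nlinarith
  obtain ⟨σ, hσ⟩ : ∃ σ : ℝ, σ = D / (c * W) := ⟨_, rfl⟩
  have hσ2 : 2 * ((m + 3 : ℕ) : ℝ) ≤ σ := by
    rw [hσ, le_div_iff₀ (by linarith)]
    push_cast
    calc 2 * ((m : ℝ) + 3) * (c * W) = Z := by rw [hZ]; ring
      _ ≤ D := by nlinarith
  have hσpos : 0 < σ := by rw [hσ]; positivity
  have hCV : ∀ Q : Finset β, Cod (m + 3) t N V Q := fun Q A _ hA =>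
    le_trans (card_le_card (filter_subset_filter _ (subset_univ Q))) (hC A (subset_univ A) hA)
  obtain ⟨Q, hQ⟩ : ∃ Q : Finset β, Q = univ.filter (fun q => ((V ∩ N q).card : ℝ) ≤ σ) := ⟨_, rfl⟩
  have hbig : ((univ \ Q).card : ℝ) ≤ p * n := by
    have e1 := big_count (hCV univ) (subset_univ (univ \ Q)) hσ2 (fun q hq => by
      have := (mem_sdiff.1 hq).2
      rw [hQ, mem_filter] at this
      exact (not_le.1 (fun h => this ⟨mem_univ _, h⟩)).le)
    rw [← hDdef] at e1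
    have e2 : D = (σ / 2) * (2 * (c * W)) := by rw [hσ]; field_simp
    have e3 : t * D ^ (m + 3) ≤ X * (σ / 2) ^ (m + 3) := by
      calc t * D ^ (m + 3) = t * (2 * (c * W)) ^ (m + 3) * (σ / 2) ^ (m + 3) := by
            rw [e2, mul_pow]; ring
        _ ≤ ((t + 1) * a) * Z ^ (m + 3) * (σ / 2) ^ (m + 3) := by
            gcongr
            nlinarith
        _ = _ := by rw [hX]
    exact le_trans (le_of_mul_le_mul_right (le_trans e1 e3) (by positivity)) hXp
  have hK := hcl n p N V Q hp (hCV Q) (le_trans (card_le_univ _) hβ) (by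
      intro v hv
      have e1 := hdeg v hv
      have e2 : (univ.filter (fun q => v ∈ N q)).card
          ≤ (Q.filter (fun q => v ∈ N q)).card + (univ \ Q).card := by
        refine le_trans (card_le_card ?_) (card_union_le _ _)
        intro q hq
        by_cases h : q ∈ Q
        · exact mem_union_left _ (mem_filter.2 ⟨h, (mem_filter.1 hq).2⟩)
        · exact mem_union_right _ (mem_sdiff.2 ⟨mem_univ _, h⟩)
      have e3 : ((univ.filter (fun q => v ∈ N q)).card : ℝ)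
          ≤ (Q.filter (fun q => v ∈ N q)).card + (univ \ Q).card := by exact_mod_cast e2
      linarith) hpd.ge (by nlinarith) (by
      rw [← hDdef]
      have e1 : (a * p) * W ≤ (a * p) * (p ^ (m + 1) * D) := by
        calc (a * p) * W = p * (a * W) := by ring
          _ ≤ p * X := by gcongr
          _ ≤ 2 * (a * p ^ (m + 3) * n) := by linarith
          _ = (a * p) * (p ^ (m + 1) * (2 * p * n)) := by ring
          _ ≤ _ := by gcongr
      exact le_of_mul_le_mul_left e1 (by positivity))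
  have := shatter_of_count (d := m + 3) (Q := Q) hV hσpos.le (fun q hq => by
      rw [hQ] at hq; exact (mem_filter.1 hq).2) (by
      rw [← hDdef] at hK ⊢
      have e1 : (W : ℝ) * (2 ^ (m + 3 + 1) * (((m + 3 : ℕ) : ℝ) + 1) * (D ^ (m + 3 + 1) * σ))
          = D ^ (m + 4) * D / 2 := by
        rw [hσ, hc]; push_cast; field_simp; ring
      have e2 : D ^ (m + 4) * D ≤ W * ((Kset (m + 3) N V Q).card * D) := by
        rw [← mul_assoc]; gcongr
      have e3 : 0 < D ^ (m + 4) * D := by positivity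
      refine lt_of_mul_lt_mul_left (a := (W : ℝ)) ?_ (by linarith)
      rw [e1]
      linarith)
  omega

theorem finite_bound (m t : ℕ) : ∃ C : ℕ, 1 ≤ C ∧ ∀ (a n k l : ℕ) (N : Fin l → Finset (Fin k)),
    2 ≤ a → a ^ (C * a ^ 2) ≤ n → k ≤ n → l ≤ n → Cod (m + 3) t N univ univ →
    (univ.image N).vcDim ≤ m + 3 →
    a * (∑ q, ((N q).card : ℝ)) ^ (m + 3) ≤ 4 ^ (m + 3) * (n : ℝ) ^ (2 * m + 5) := by
  refine ⟨(t + 1 + (3 * m + 13 + cst t m) * (m + 3)) * (m + 3), Nat.succ_le_of_lt (by positivity), ?_⟩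
  intro a n k l N ha hn hk hl hC hvc
  refine finite_aux ha (Nat.one_le_pow _ _ (by omega)) (claim t m a ha) (le_trans ?_ hn) N
    (by simpa using hk) (by simpa using hl) hC hvc
  have e1 : (t + 1) * a ≤ a ^ (t + 1) := by
    simpa using two_pow_mul_le (t := t) (e := 0) ha
  have e2 : 2 * (m + 3) * (2 ^ (m + 5) * (m + 4)) ≤ a ^ (3 * m + 13) := by
    have h1 : m + 3 ≤ 2 ^ (m + 3) := Nat.lt_two_pow_self.le
    have h2 : m + 4 ≤ 2 ^ (m + 4) := Nat.lt_two_pow_self.le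
    calc 2 * (m + 3) * (2 ^ (m + 5) * (m + 4)) ≤ 2 * 2 ^ (m + 3) * (2 ^ (m + 5) * 2 ^ (m + 4)) := by
          gcongr
      _ = 2 ^ (3 * m + 13) := by ring
      _ ≤ _ := Nat.pow_le_pow_left ha _
  have e3 : 1 ≤ a ^ 2 := Nat.one_le_pow _ _ (by omega)
  calc _ ≤ (a ^ (t + 1) * (a ^ (3 * m + 13) * a ^ (cst t m * a ^ 2)) ^ (m + 3)) ^ (m + 3) := by
        gcongr
    _ = a ^ (((t + 1) * 1 + ((3 * m + 13) * 1 + cst t m * a ^ 2) * (m + 3)) * (m + 3)) := by
        rw [← pow_add, ← pow_mul, ← pow_add, ← pow_mul]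
        congr 1
        ring
    _ ≤ a ^ (((t + 1) * a ^ 2 + ((3 * m + 13) * a ^ 2 + cst t m * a ^ 2) * (m + 3)) * (m + 3)) := by
        refine Nat.pow_le_pow_right (by omega) ?_
        gcongr
    _ = _ := by congr 1; ring

theorem choose_a (C : ℕ) (hC : 1 ≤ C) : ∃ n₀ : ℕ, ∀ n : ℕ, n₀ ≤ n → 1 ≤ n ∧
    0 < Real.log (Real.log n) / Real.log n ∧ ∃ a : ℕ, 2 ≤ a ∧ a ^ (C * a ^ 2) ≤ n ∧
      1 ≤ 4 * C * (a : ℝ) ^ 2 * (Real.log (Real.log n) / Real.log n) := by
  have hCr : (1 : ℝ) ≤ C := by exact_mod_cast hC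
  have hT : Filter.Tendsto (fun n : ℕ => Real.log n) Filter.atTop Filter.atTop :=
    Real.tendsto_log_atTop.comp tendsto_natCast_atTop_atTop
  have h1 := hT.eventually (Real.isLittleO_log_id_atTop.bound (c := 1 / (4 * C)) (by positivity))
  have h2 := hT.eventually (Filter.eventually_ge_atTop (Real.exp 1))
  obtain ⟨n₀, hn₀⟩ := Filter.eventually_atTop.1 (h1.and (h2.and (Filter.eventually_ge_atTop 1)))
  refine ⟨n₀, fun n hn => ?_⟩
  obtain ⟨h3, h4, h5⟩ := hn₀ n hn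
  obtain ⟨x, hx⟩ : ∃ x, x = Real.log n := ⟨_, rfl⟩
  rw [← hx] at h3 h4 ⊢
  have he1 : (1 : ℝ) ≤ Real.exp 1 := Real.one_le_exp zero_le_one
  have hxpos : 0 < x := by linarith
  have hy1 : 1 ≤ Real.log x := by rw [Real.le_log_iff_exp_le hxpos]; exact h4
  obtain ⟨y, hy⟩ : ∃ y, y = Real.log x := ⟨_, rfl⟩
  rw [← hy] at h3 hy1 ⊢
  rw [id, Real.norm_of_nonneg (by linarith), Real.norm_of_nonneg hxpos.le] at h3
  have h6 : 4 * (C * y) ≤ x := by
    have : (4 * C) * y ≤ (4 * C) * (1 / (4 * C) * x) := by gcongr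
    calc 4 * (C * y) = (4 * C) * y := by ring
      _ ≤ (4 * C) * (1 / (4 * C) * x) := this
      _ = x := by field_simp
  have hCy : 1 ≤ C * y := by nlinarith
  obtain ⟨s, hs⟩ : ∃ s, s = Real.sqrt (x / (C * y)) := ⟨_, rfl⟩
  have hs2 : s ^ 2 = x / (C * y) := by rw [hs]; exact Real.sq_sqrt (by positivity)
  have hs0 : 0 ≤ s := by rw [hs]; positivity
  have hs3 : s ^ 2 * (C * y) = x := by rw [hs2]; field_simp
  have hs4 : 2 ≤ s := by
    refine le_of_pow_le_pow_left₀ (n := 2) (by norm_num) hs0 ?_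
    rw [hs2, le_div_iff₀ (by linarith)]
    linarith
  have ha1 : (⌊s⌋₊ : ℝ) ≤ s := Nat.floor_le hs0
  have ha2 : s < ⌊s⌋₊ + 1 := Nat.lt_floor_add_one s
  have ha3 : 2 ≤ ⌊s⌋₊ := Nat.le_floor (by exact_mod_cast hs4)
  refine ⟨h5, by positivity, ⌊s⌋₊, ha3, ?_, ?_⟩
  · generalize ⌊s⌋₊ = a at ha1 ha2 ha3
    have ha4 : (2 : ℝ) ≤ a := by exact_mod_cast ha3
    have hnpos : (0 : ℝ) < n := by exact_mod_cast h5
    have e1 : Real.log a ≤ y := by
      rw [hy]
      refine Real.log_le_log (by linarith) ?_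
      nlinarith
    have e2 : Real.log ((a : ℝ) ^ (C * a ^ 2)) ≤ Real.log n := by
      rw [Real.log_pow, ← hx]
      push_cast
      calc C * (a : ℝ) ^ 2 * Real.log a ≤ C * s ^ 2 * y := by gcongr
        _ = x := by rw [← hs3]; ring
    have e3 := (Real.log_le_log_iff (by positivity) hnpos).1 e2
    exact_mod_cast e3
  · generalize ⌊s⌋₊ = a at ha1 ha2 ha3
    have ha4 : (2 : ℝ) ≤ a := by exact_mod_cast ha3
    have e1 : s ^ 2 ≤ 4 * (a : ℝ) ^ 2 := by nlinarith
    rw [← mul_div_assoc, le_div_iff₀ hxpos, one_mul]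
    calc x = s ^ 2 * (C * y) := hs3.symm
      _ ≤ 4 * (a : ℝ) ^ 2 * (C * y) := by gcongr
      _ = _ := by ring

theorem main (d t : ℕ) (hd : 3 ≤ d) : ∃ (C : ℝ) (n₀ : ℕ), ∀ (k l : ℕ) (N : Fin l → Finset (Fin k)),
    n₀ ≤ k + l →
    (∀ A : Finset (Fin k), A.card = d → (univ.filter (fun q => A ⊆ N q)).card < t) →
    (univ.image N).vcDim ≤ d →
    ∑ q, ((N q).card : ℝ) ≤ C * ((k + l : ℕ) : ℝ) ^ (2 - 1 / (d : ℝ))
      * (Real.log (Real.log (k + l : ℕ)) / Real.log (k + l : ℕ)) ^ (1 / (2 * (d : ℝ))) := by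
  obtain ⟨m, rfl⟩ : ∃ m, d = m + 3 := ⟨d - 3, by omega⟩
  obtain ⟨C, hC1, hC⟩ := finite_bound m t
  obtain ⟨n₀, hn₀⟩ := choose_a C hC1
  refine ⟨16 * C, n₀, fun k l N hn hK hvc => ?_⟩
  obtain ⟨hn1, hz, a, ha, han, haz⟩ := hn₀ (k + l) hn
  have h1 := hC a (k + l) k l N ha han (by omega) (by omega) (fun A _ hA => (hK A hA).le) hvc
  generalize k + l = n at hn1 hz haz h1
  generalize Real.log (Real.log n) / Real.log n = z at hz haz
  have he0 : 0 ≤ ∑ q, ((N q).card : ℝ) := by positivity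
  generalize ∑ q, ((N q).card : ℝ) = e at h1 he0
  have hCr : (1 : ℝ) ≤ C := by exact_mod_cast hC1
  have hnr : (0 : ℝ) < n := by exact_mod_cast hn1
  have har : (0 : ℝ) < a := by exact_mod_cast (by omega : 0 < a)
  refine le_of_pow_le_pow_left₀ (n := 2 * (m + 3)) (by omega) (by positivity) ?_
  have hd0 : (((m + 3 : ℕ) : ℝ)) ≠ 0 := by positivity
  have e1 : ((n : ℝ) ^ (2 - 1 / ((m + 3 : ℕ) : ℝ))) ^ (2 * (m + 3)) = ((n : ℝ) ^ (2 * m + 5)) ^ 2 := by
    rw [← Real.rpow_natCast, ← Real.rpow_mul hnr.le, ← pow_mul, ← Real.rpow_natCast]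
    congr 1
    field_simp
    push_cast
    ring
  have e2 : (z ^ (1 / (2 * ((m + 3 : ℕ) : ℝ)))) ^ (2 * (m + 3)) = z := by
    rw [← Real.rpow_natCast, ← Real.rpow_mul hz.le]
    have : 1 / (2 * ((m + 3 : ℕ) : ℝ)) * ((2 * (m + 3) : ℕ) : ℝ) = 1 := by
      field_simp
      push_cast
      ring
    rw [this, Real.rpow_one]
  rw [mul_pow, mul_pow, e1, e2]
  have e3 : (4 : ℝ) * C * (4 ^ (m + 3)) ^ 2 ≤ (16 * C) ^ (2 * (m + 3)) := by
    have f1 : (4 : ℝ) * C ≤ (4 * C) ^ (2 * (m + 3)) := le_self_pow₀ (by linarith) (by omega)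
    calc (4 : ℝ) * C * (4 ^ (m + 3)) ^ 2 ≤ (4 * C) ^ (2 * (m + 3)) * (4 ^ (m + 3)) ^ 2 := by gcongr
      _ = _ := by
          rw [← pow_mul, mul_comm (m + 3) 2, ← mul_pow]
          congr 1
          ring
  calc e ^ (2 * (m + 3)) = 1 * (e ^ (m + 3)) ^ 2 := by rw [← pow_mul, mul_comm (m + 3) 2, one_mul]
    _ ≤ (4 * C * (a : ℝ) ^ 2 * z) * (e ^ (m + 3)) ^ 2 := by gcongr
    _ = 4 * C * z * (a * e ^ (m + 3)) ^ 2 := by ring
    _ ≤ 4 * C * z * (4 ^ (m + 3) * (n : ℝ) ^ (2 * m + 5)) ^ 2 := by gcongr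
    _ = (4 * C * (4 ^ (m + 3)) ^ 2) * ((n : ℝ) ^ (2 * m + 5)) ^ 2 * z := by ring
    _ ≤ _ := by gcongr

end Pool.Agent.P.MP_1d6da1_co
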